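import Pool.Agent.Helper62.AC.Defs

/-!
# Packet E of MP_917a41_gt: `H_m` (`m ≥ 1`) is not 7-arc connected
-/

open Set Topology TopologicalSpace Filter

namespace Pool.Agent.Helper38.ACE

open Pool.Agent.Helper62.AC

section

variable {Y : Type*} [TopologicalSpace Y]

theorem isCompact_of_arcBetween {A : Set Y} {a b : Y} (h : ArcBetween A a b) : IsCompact A := by
  obtain ⟨γ, hc, hi, hr, h0, h1⟩ := h.exists_map
  rw [← hr]; exact isCompact_range hc

theorem exists_interior {A : Set Y} {a b : Y} (h : ArcBetween A a b) :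
    ∃ x ∈ A, x ≠ a ∧ x ≠ b := by
  obtain ⟨γ, hc, hi, hr, h0, h1⟩ := h.exists_map
  refine ⟨γ ⟨1/2, by constructor <;> norm_num⟩, hr ▸ mem_range_self _, ?_, ?_⟩
  · intro h
    rw [← h0] at h
    have := hi h
    have := congrArg Subtype.val this
    norm_num at this
  · intro h
    rw [← h1] at h
    have := hi h
    have := congrArg Subtype.val this
    norm_num at this

variable [T2Space Y]

/-- The crossing lemma. -/
theorem crossing {m : ℕ} {X : Set Y} (R : Realization m X) {e : ℕ} (he : e < 9 * m + 3)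
    {g : ℝ → Y} (hg : Continuous g) (hX : ∀ t, g t ∈ X) {s t : ℝ}
    (hs : g s ∈ R.arc e) (ht : g t ∉ R.arc e) :
    ∃ u ∈ uIcc s t, g u = R.pt (src m e) ∨ g u = R.pt (dst m e) := by
  have hcl : ∀ f < 9 * m + 3, IsClosed (R.arc f) := fun f hf =>
    (isCompact_of_arcBetween (R.isArc f hf)).isClosed
  have hC : IsClosed (⋃ f ∈ (Finset.range (9 * m + 3)).erase e, R.arc f) := by
    apply Set.Finite.isClosed_biUnion
    · exact Finset.finite_toSet _
    · intro f hf
      exact hcl f (Finset.mem_range.1 (Finset.mem_of_mem_erase hf))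
  have hpre : IsPreconnected (uIcc s t) := isPreconnected_uIcc
  rw [isPreconnected_closed_iff] at hpre
  obtain ⟨u, hu, hu1, hu2⟩ := hpre _ _ ((hcl e he).preimage hg) (hC.preimage hg)
    (by
      intro u _
      have := hX u
      rw [R.union] at this
      simp only [mem_iUnion, Finset.mem_range] at this
      obtain ⟨f, hf, hu⟩ := this
      by_cases hfe : f = e
      · left; subst hfe; exact hu
      · right
        simp only [mem_preimage, mem_iUnion]
        exact ⟨f, Finset.mem_erase.2 ⟨hfe, Finset.mem_range.2 hf⟩, hu⟩)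
    ⟨s, left_mem_uIcc, hs⟩
    (by
      refine ⟨t, right_mem_uIcc, ?_⟩
      have := hX t
      rw [R.union] at this
      simp only [mem_iUnion, Finset.mem_range] at this
      obtain ⟨f, hf, hu⟩ := this
      have hfe : f ≠ e := by
        rintro rfl
        exact ht hu
      simp only [mem_preimage, mem_iUnion]
      exact ⟨f, Finset.mem_erase.2 ⟨hfe, Finset.mem_range.2 hf⟩, hu⟩)
  simp only [mem_preimage, mem_iUnion] at hu2
  obtain ⟨f, hf, huf⟩ := hu2
  have hf' := Finset.mem_erase.1 hf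
  have := R.inter e he f (Finset.mem_range.1 hf'.2) (Ne.symm hf'.1) ⟨hu1, huf⟩
  refine ⟨u, hu, ?_⟩
  have h1 := this.1
  simpa using h1

end

/-- A vertex `v` is visited at a time adjacent to the mark `i`. -/
def AdjV {Y : Type*} (g : ℝ → Y) (t : Fin 7 → ℝ) (v : Y) (i : Fin 7) : Prop :=
  ∃ s ∈ Icc (0:ℝ) 1, g s = v ∧ (∀ k, ¬ (s < t k ∧ t k < t i)) ∧ (∀ k, ¬ (t i < t k ∧ t k < s))

theorem not_all_adj {Y : Type*} {g : ℝ → Y} (hg : InjOn g (Icc 0 1)) {t : Fin 7 → ℝ}
    (ht : Function.Injective t) {v : Y} (hv : ∀ i, g (t i) ≠ v) {i j k : Fin 7} (hij : i ≠ j)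
    (hik : i ≠ k) (hjk : j ≠ k) (h1 : AdjV g t v i) (h2 : AdjV g t v j) (h3 : AdjV g t v k) :
    False := by
  obtain ⟨s, hs, hsv, a1, b1⟩ := h1
  obtain ⟨s', hs', hsv', a2, b2⟩ := h2
  obtain ⟨s'', hs'', hsv'', a3, b3⟩ := h3
  have e1 : s' = s := hg hs' hs (by rw [hsv', hsv])
  have e2 : s'' = s := hg hs'' hs (by rw [hsv'', hsv])
  subst e1
  subst e2
  have n1 : t i ≠ s'' := fun h => hv i (by rw [h]; exact hsv)
  have n2 : t j ≠ s'' := fun h => hv j (by rw [h]; exact hsv)
  have n3 : t k ≠ s'' := fun h => hv k (by rw [h]; exact hsv)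
  have m1 : t i ≠ t j := fun h => hij (ht h)
  have m2 : t i ≠ t k := fun h => hik (ht h)
  have m3 : t j ≠ t k := fun h => hjk (ht h)
  have c1 := a1 j
  have c2 := a1 k
  have c3 := b1 j
  have c4 := b1 k
  have d1 := a2 i
  have d2 := a2 k
  have d3 := b2 i
  have d4 := b2 k
  have f1 := a3 i
  have f2 := a3 j
  have f3 := b3 i
  have f4 := b3 j
  rcases lt_or_gt_of_ne n1 with n1 | n1 <;> rcases lt_or_gt_of_ne n2 with n2 | n2 <;>
    rcases lt_or_gt_of_ne n3 with n3 | n3 <;> rcases lt_or_gt_of_ne m1 with m1 | m1 <;>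
    rcases lt_or_gt_of_ne m2 with m2 | m2 <;> rcases lt_or_gt_of_ne m3 with m3 | m3 <;>
    first
      | exact c1 ⟨by assumption, by assumption⟩
      | exact c2 ⟨by assumption, by assumption⟩
      | exact c3 ⟨by assumption, by assumption⟩
      | exact c4 ⟨by assumption, by assumption⟩
      | exact d1 ⟨by assumption, by assumption⟩
      | exact d2 ⟨by assumption, by assumption⟩
      | exact d3 ⟨by assumption, by assumption⟩
      | exact d4 ⟨by assumption, by assumption⟩
      | exact f1 ⟨by assumption, by assumption⟩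
      | exact f2 ⟨by assumption, by assumption⟩
      | exact f3 ⟨by assumption, by assumption⟩
      | exact f4 ⟨by assumption, by assumption⟩

/-- The combinatorial core. -/
theorem core {Y : Type*} {g : ℝ → Y} (hg : InjOn g (Icc 0 1)) {t : Fin 7 → ℝ}
    (ht : Function.Injective t) (htI : ∀ i, t i ∈ Icc (0:ℝ) 1) (a b : Fin 7 → Y)
    (ha : ∀ i j, g (t i) ≠ a j) (hb : ∀ i j, g (t i) ≠ b j)
    (hcross : ∀ i j, i ≠ j → ∃ u ∈ uIcc (t i) (t j), g u = a i ∨ g u = b i)
    (v : Fin 3 → Y)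
    (h0 : v 0 = b 0) (h1 : v 0 = b 1) (h2 : v 0 = a 2) (h2' : v 1 = b 2) (h3 : v 1 = a 3)
    (h4 : v 1 = a 4) (h4' : v 2 = b 4) (h5 : v 2 = b 5) (h6 : v 2 = a 6) : False := by
  -- after a mark that is not the last one
  have hafter : ∀ i, (∃ j, t i < t j) → ∃ s ∈ Icc (0:ℝ) 1, t i < s ∧ (g s = a i ∨ g s = b i) ∧
      (∀ k, ¬ (t i < t k ∧ t k < s)) := by
    intro i hi
    obtain ⟨j0, hj0⟩ := hi
    obtain ⟨j, hj, hmin⟩ := Finset.exists_min_image
      (Finset.univ.filter (fun j => t i < t j)) t ⟨j0, by simpa using hj0⟩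
    simp only [Finset.mem_filter, Finset.mem_univ, true_and] at hj hmin
    have hij : i ≠ j := by
      rintro rfl
      exact lt_irrefl _ hj
    obtain ⟨u, hu, hu'⟩ := hcross i j hij
    rw [uIcc_of_le hj.le] at hu
    have hu1 : u ≠ t i := by
      rintro rfl
      rcases hu' with h | h
      · exact ha i i h
      · exact hb i i h
    refine ⟨u, ⟨le_trans (htI i).1 hu.1, le_trans hu.2 (htI j).2⟩, lt_of_le_of_ne hu.1 hu1.symm,
      hu', ?_⟩
    rintro k ⟨hk1, hk2⟩
    exact absurd (hmin k hk1) (not_le.2 (lt_of_lt_of_le hk2 hu.2))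
  have hbefore : ∀ i, (∃ j, t j < t i) → ∃ s ∈ Icc (0:ℝ) 1, s < t i ∧ (g s = a i ∨ g s = b i) ∧
      (∀ k, ¬ (s < t k ∧ t k < t i)) := by
    intro i hi
    obtain ⟨j0, hj0⟩ := hi
    obtain ⟨j, hj, hmax⟩ := Finset.exists_max_image
      (Finset.univ.filter (fun j => t j < t i)) t ⟨j0, by simpa using hj0⟩
    simp only [Finset.mem_filter, Finset.mem_univ, true_and] at hj hmax
    have hij : i ≠ j := by
      rintro rfl
      exact lt_irrefl _ hj
    obtain ⟨u, hu, hu'⟩ := hcross i j hij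
    rw [uIcc_of_ge hj.le] at hu
    have hu1 : u ≠ t i := by
      rintro rfl
      rcases hu' with h | h
      · exact ha i i h
      · exact hb i i h
    refine ⟨u, ⟨le_trans (htI j).1 hu.1, le_trans hu.2 (htI i).2⟩, lt_of_le_of_ne hu.2 hu1,
      hu', ?_⟩
    rintro k ⟨hk1, hk2⟩
    exact absurd (hmax k hk2) (not_le.2 (lt_of_le_of_lt hu.1 hk1))
  have hA : ∀ i, (∃ j, t i < t j) → (AdjV g t (a i) i ∨ AdjV g t (b i) i) := by
    intro i hi
    obtain ⟨s, hs, hlt, he, hk⟩ := hafter i hi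
    have hk' : ∀ k, ¬ (s < t k ∧ t k < t i) := fun k h => absurd (h.1.trans h.2) (not_lt.2 hlt.le)
    rcases he with he | he
    · exact Or.inl ⟨s, hs, he, hk', hk⟩
    · exact Or.inr ⟨s, hs, he, hk', hk⟩
  have hB : ∀ i, (∃ j, t j < t i) → (AdjV g t (a i) i ∨ AdjV g t (b i) i) := by
    intro i hi
    obtain ⟨s, hs, hlt, he, hk⟩ := hbefore i hi
    have hk' : ∀ k, ¬ (t i < t k ∧ t k < s) := fun k h => absurd (h.1.trans h.2) (not_lt.2 hlt.le)
    rcases he with he | he
    · exact Or.inl ⟨s, hs, he, hk, hk'⟩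
    · exact Or.inr ⟨s, hs, he, hk, hk'⟩
  have hAB : ∀ i, (∃ j, t i < t j) → (∃ j, t j < t i) →
      (AdjV g t (a i) i ∧ AdjV g t (b i) i) := by
    intro i hi hi'
    obtain ⟨s, hs, hlt, he, hk⟩ := hafter i hi
    obtain ⟨s', hs', hlt', he', hk'⟩ := hbefore i hi'
    have hss : s ≠ s' := (hlt'.trans hlt).ne'
    have hk2 : ∀ k, ¬ (s < t k ∧ t k < t i) := fun k h => absurd (h.1.trans h.2) (not_lt.2 hlt.le)
    have hk2' : ∀ k, ¬ (t i < t k ∧ t k < s') :=
      fun k h => absurd (h.1.trans h.2) (not_lt.2 hlt'.le)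
    rcases he with he | he <;> rcases he' with he' | he'
    · exact absurd (hg hs hs' (by rw [he, he'])) hss
    · exact ⟨⟨s, hs, he, hk2, hk⟩, ⟨s', hs', he', hk', hk2'⟩⟩
    · exact ⟨⟨s', hs', he', hk', hk2'⟩, ⟨s, hs, he, hk2, hk⟩⟩
    · exact absurd (hg hs hs' (by rw [he, he'])) hss
  -- every mark is not first or not last
  have hone : ∀ i, (AdjV g t (a i) i ∨ AdjV g t (b i) i) := by
    intro i
    obtain ⟨j, hj⟩ : ∃ j, j ≠ i := exists_ne i
    have : t j ≠ t i := fun h => hj (ht h)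
    rcases lt_or_gt_of_ne this with h | h
    · exact hB i ⟨j, h⟩
    · exact hA i ⟨j, h⟩
  -- the extreme marks
  have hext : ∀ i, (¬ AdjV g t (a i) i ∨ ¬ AdjV g t (b i) i) →
      (∀ j, t j ≤ t i) ∨ (∀ j, t i ≤ t j) := by
    intro i hi
    by_contra hcon
    push Not at hcon
    have := hAB i hcon.1 hcon.2
    rcases hi with hi | hi
    · exact hi this.1
    · exact hi this.2
  have huniq : ∀ i j k : Fin 7, i ≠ j → i ≠ k → j ≠ k →
      ((∀ l, t l ≤ t i) ∨ (∀ l, t i ≤ t l)) → ((∀ l, t l ≤ t j) ∨ (∀ l, t j ≤ t l)) →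
      ((∀ l, t l ≤ t k) ∨ (∀ l, t k ≤ t l)) → False := by
    intro i j k hij hik hjk hi hj hk
    rcases hi with hi | hi <;> rcases hj with hj | hj <;> rcases hk with hk | hk
    · exact hij (ht (le_antisymm (hj i) (hi j)))
    · exact hij (ht (le_antisymm (hj i) (hi j)))
    · exact hik (ht (le_antisymm (hk i) (hi k)))
    · exact hjk (ht (le_antisymm (hj k) (hk j)))
    · exact hjk (ht (le_antisymm (hk j) (hj k)))
    · exact hik (ht (le_antisymm (hi k) (hk i)))
    · exact hij (ht (le_antisymm (hi j) (hj i)))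
    · exact hij (ht (le_antisymm (hi j) (hj i)))
  have hv0 : ∀ i, g (t i) ≠ v 0 := fun i => by rw [h0]; exact hb i 0
  have hv1 : ∀ i, g (t i) ≠ v 1 := fun i => by rw [h2']; exact hb i 2
  have hv2 : ∀ i, g (t i) ≠ v 2 := fun i => by rw [h4']; exact hb i 4
  -- choose the non-adjacent marks
  have k0 : ∃ i : Fin 7, (i = 0 ∨ i = 1 ∨ i = 2) ∧ ¬ AdjV g t (v 0) i := by
    by_contra hcon
    push Not at hcon
    exact not_all_adj hg ht hv0 (i := 0) (j := 1) (k := 2) (by decide) (by decide) (by decide)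
      (hcon 0 (by decide)) (hcon 1 (by decide)) (hcon 2 (by decide))
  have k1 : ∃ i : Fin 7, (i = 2 ∨ i = 3 ∨ i = 4) ∧ ¬ AdjV g t (v 1) i := by
    by_contra hcon
    push Not at hcon
    exact not_all_adj hg ht hv1 (i := 2) (j := 3) (k := 4) (by decide) (by decide) (by decide)
      (hcon 2 (by decide)) (hcon 3 (by decide)) (hcon 4 (by decide))
  have k2 : ∃ i : Fin 7, (i = 4 ∨ i = 5 ∨ i = 6) ∧ ¬ AdjV g t (v 2) i := by
    by_contra hcon
    push Not at hcon
    exact not_all_adj hg ht hv2 (i := 4) (j := 5) (k := 6) (by decide) (by decide) (by decide)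
      (hcon 4 (by decide)) (hcon 5 (by decide)) (hcon 6 (by decide))
  obtain ⟨i0, hi0, n0⟩ := k0
  obtain ⟨i1, hi1, n1⟩ := k1
  obtain ⟨i2, hi2, n2⟩ := k2
  have x0 : (∀ j, t j ≤ t i0) ∨ (∀ j, t i0 ≤ t j) := by
    apply hext
    rcases hi0 with rfl | rfl | rfl
    · right; rw [← h0]; exact n0
    · right; rw [← h1]; exact n0
    · left; rw [← h2]; exact n0
  have x1 : (∀ j, t j ≤ t i1) ∨ (∀ j, t i1 ≤ t j) := by
    apply hext
    rcases hi1 with rfl | rfl | rfl
    · right; rw [← h2']; exact n1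
    · left; rw [← h3]; exact n1
    · left; rw [← h4]; exact n1
  have x2 : (∀ j, t j ≤ t i2) ∨ (∀ j, t i2 ≤ t j) := by
    apply hext
    rcases hi2 with rfl | rfl | rfl
    · right; rw [← h4']; exact n2
    · right; rw [← h5]; exact n2
    · left; rw [← h6]; exact n2
  have d01 : i0 ≠ i1 := by
    rintro rfl
    have : i0 = 2 := by
      rcases hi0 with rfl | rfl | rfl
      · exact absurd hi1 (by decide)
      · exact absurd hi1 (by decide)
      · rfl
    subst this
    rcases hone 2 with h | h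
    · rw [← h2] at h; exact n0 h
    · rw [← h2'] at h; exact n1 h
  have d12 : i1 ≠ i2 := by
    rintro rfl
    have : i1 = 4 := by
      rcases hi1 with rfl | rfl | rfl
      · exact absurd hi2 (by decide)
      · exact absurd hi2 (by decide)
      · rfl
    subst this
    rcases hone 4 with h | h
    · rw [← h4] at h; exact n1 h
    · rw [← h4'] at h; exact n2 h
  have d02 : i0 ≠ i2 := by
    rintro rfl
    rcases hi0 with rfl | rfl | rfl
    · exact absurd hi2 (by decide)
    · exact absurd hi2 (by decide)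
    · exact absurd hi2 (by decide)
  exact huniq i0 i1 i2 d01 d02 d12 x0 x1 x2

/-- The codes of the seven marked edges. -/
def ec : Fin 7 → ℕ := ![0, 8, 3, 9, 6, 1, 4]

theorem stmtE : StmtE := by
  intro Y _ _ m X hm R h7
  have hec : ∀ i, ec i < 9 * m + 3 := by
    intro i
    have : ec i ≤ 9 := by
      fin_cases i <;> decide
    omega
  have hecinj : Function.Injective ec := by decide
  -- interior points
  have hx : ∀ i : Fin 7, ∃ x ∈ R.arc (ec i), x ≠ R.pt (src m (ec i)) ∧ x ≠ R.pt (dst m (ec i)) :=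
    fun i => exists_interior (R.isArc (ec i) (hec i))
  choose x hxa hxs hxd using hx
  have hnot : ∀ i, ∀ f < 9 * m + 3, f ≠ ec i → x i ∉ R.arc f := by
    intro i f hf hfe hmem
    have := (R.inter (ec i) (hec i) f hf hfe.symm ⟨hxa i, hmem⟩).1
    rcases this with h | h
    · exact hxs i h
    · exact hxd i h
  have hxX : ∀ i, x i ∈ X := by
    intro i
    rw [R.union]
    simp only [mem_iUnion, Finset.mem_range]
    exact ⟨ec i, hec i, hxa i⟩
  obtain ⟨A, hAX, hA, hxA⟩ := h7 x hxX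
  obtain ⟨p, q, hpq⟩ := hA.exists_between
  obtain ⟨γ, hc, hi, hr, -, -⟩ := hpq.exists_map
  -- real parameters
  have hgc : Continuous (IccExtend (zero_le_one' ℝ) γ) := hc.Icc_extend'
  have hginj : InjOn (IccExtend (zero_le_one' ℝ) γ) (Icc 0 1) := by
    intro s hs t ht hst
    rw [IccExtend_of_mem _ _ hs, IccExtend_of_mem _ _ ht] at hst
    exact congrArg Subtype.val (hi hst)
  have hgX : ∀ s, IccExtend (zero_le_one' ℝ) γ s ∈ X := by
    intro s
    apply hAX
    rw [← hr]
    exact mem_range_self _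
  have ht : ∀ i, ∃ t ∈ Icc (0:ℝ) 1, IccExtend (zero_le_one' ℝ) γ t = x i := by
    intro i
    have := hxA i
    rw [← hr] at this
    obtain ⟨t, ht⟩ := this
    refine ⟨t.1, t.2, ?_⟩
    rw [IccExtend_of_mem _ _ t.2]
    exact ht
  choose t htI htx using ht
  have hxinj : Function.Injective x := by
    intro i j hij
    by_contra hne
    exact hnot i (ec j) (hec j) (fun h => hne (hecinj h.symm)) (hij ▸ hxa j)
  have htinj : Function.Injective t := by
    intro i j hij
    apply hxinj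
    rw [← htx i, ← htx j, hij]
  -- ends are not marks
  have hend : ∀ i j, x i ≠ R.pt (src m (ec j)) ∧ x i ≠ R.pt (dst m (ec j)) := by
    intro i j
    by_cases hij : i = j
    · subst hij
      exact ⟨hxs i, hxd i⟩
    · have hmem : ∀ w ∈ ({R.pt (src m (ec j)), R.pt (dst m (ec j))} : Set Y), w ∈ R.arc (ec j) := by
        intro w hw
        obtain ⟨δ, -, -, hδr, hδ0, hδ1⟩ := (R.isArc (ec j) (hec j)).exists_map
        rw [← hδr]
        rcases hw with rfl | rfl
        · rw [← hδ0]; exact mem_range_self _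
        · rw [← hδ1]; exact mem_range_self _
      have hne : ec j ≠ ec i := fun h => hij (hecinj h.symm)
      constructor
      · intro h
        exact hnot i (ec j) (hec j) hne (h ▸ hmem _ (Or.inl rfl))
      · intro h
        exact hnot i (ec j) (hec j) hne (h ▸ hmem _ (Or.inr rfl))
  refine core hginj htinj htI (fun i => R.pt (src m (ec i))) (fun i => R.pt (dst m (ec i)))
    (fun i j => by rw [htx]; exact (hend i j).1) (fun i j => by rw [htx]; exact (hend i j).2)
    ?_ ![R.pt 0, R.pt 3, R.pt 1] ?_ ?_ ?_ ?_ ?_ ?_ ?_ ?_ ?_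
  · intro i j hij
    apply crossing R (hec i) hgc hgX
    · rw [htx]; exact hxa i
    · rw [htx]
      exact hnot j (ec i) (hec i) (fun h => hij (hecinj h))
  all_goals
    simp [ec, src, dst, vP, vQ, Nat.ne_of_lt (show 0 < m from hm)]

end Pool.Agent.Helper38.ACE
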