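import Pool.Agent.Helper62.AC.Defs

/-!
# Packet F of MP_917a41_gt: three strands form `H_m`
-/

open Set Topology TopologicalSpace Filter

namespace Pool.Agent.Helper38.ACF

open Pool.Agent.Helper62.AC

/-- The index of the parameter interval of the edge `e`. -/
def idx (e : ℕ) : ℕ := 4 * (e / 9) + e % 9 / 3

/-- The strand carrying the edge `e`. -/
def strand (e : ℕ) : ZMod 3 := ((e % 3 : ℕ) : ZMod 3) - ((e / 9 : ℕ) : ZMod 3)

/-- The vertices. -/
noncomputable def ptF {Y : Type} (m : ℕ) (T : ℕ → ℝ) (γ : ZMod 3 → ℝ → Y) (v : ℕ) : Y :=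
  if v = 6 * m + 1 then γ 0 0
  else if v = 6 * m then γ 0 2
  else γ (((v % 3 : ℕ) : ZMod 3) - ((v / 6 : ℕ) : ZMod 3)) (T (4 * (v / 6) + 1 + v % 6 / 3))

theorem natCast_inj3 {c d : ℕ} (hc : c < 3) (hd : d < 3)
    (h : (c : ZMod 3) = (d : ZMod 3)) : c = d := by
  have := congrArg ZMod.val h
  rwa [ZMod.val_natCast_of_lt hc, ZMod.val_natCast_of_lt hd] at this

theorem one_ne_zero3 (i : ZMod 3) : i ≠ i + 1 := by
  intro h
  have : (0 : ZMod 3) = 1 := by
    have := congrArg (fun x => x - i) h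
    simp at this
  exact absurd this (by decide)

theorem T_lt {m : ℕ} {T : ℕ → ℝ} (hT : ∀ n ≤ 4 * m, T n < T (n + 1)) {a b : ℕ} (hab : a < b)
    (hb : b ≤ 4 * m + 1) : T a < T b := by
  induction b with
  | zero => omega
  | succ b ih =>
    rcases Nat.lt_succ_iff_lt_or_eq.1 hab with h | h
    · exact (ih h (by omega)).trans (hT b (by omega))
    · subst h; exact hT a (by omega)

theorem T_le {m : ℕ} {T : ℕ → ℝ} (hT : ∀ n ≤ 4 * m, T n < T (n + 1)) {a b : ℕ} (hab : a ≤ b)
    (hb : b ≤ 4 * m + 1) : T a ≤ T b := by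
  rcases hab.lt_or_eq with h | h
  · exact (T_lt hT h hb).le
  · rw [h]

theorem T_mem {m : ℕ} {T : ℕ → ℝ} (hT : ∀ n ≤ 4 * m, T n < T (n + 1)) {l n : ℕ}
    (hl : l ≤ 4 * m + 1) (hn : n ≤ 4 * m) (h1 : T n ≤ T l) (h2 : T l ≤ T (n + 1)) :
    T l = T n ∨ T l = T (n + 1) := by
  rcases Nat.lt_or_ge n l with h | h
  · right
    exact le_antisymm h2 (T_le hT h hl)
  · left
    exact le_antisymm (T_le hT h (by omega)) h1

theorem T_find {m : ℕ} {T : ℕ → ℝ} (h0 : T 0 = 0) (h2 : T (4 * m + 1) = 2)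
    {s : ℝ} (hs : s ∈ Icc (0 : ℝ) 2) : ∃ n ≤ 4 * m, s ∈ Icc (T n) (T (n + 1)) := by
  by_contra hcon
  push Not at hcon
  have : ∀ n ≤ 4 * m + 1, T n ≤ s := by
    intro n
    induction n with
    | zero => intro _; rw [h0]; exact hs.1
    | succ n ih =>
      intro hn
      have h1 := ih (by omega)
      have h3 := hcon n (by omega)
      by_contra h4
      exact h3 ⟨h1, (not_le.1 h4).le⟩
  have h5 := this (4 * m) (by omega)
  exact hcon (4 * m) le_rfl ⟨h5, by rw [h2]; exact hs.2⟩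

theorem stmtF : StmtF := by
  intro Y _ _ m T σ γ hT hT0 hT2 hγ hγ0 hγ2 hσm hσe hσs hov hco
  have hTle : ∀ {a b : ℕ}, a ≤ b → b ≤ 4 * m + 1 → T a ≤ T b := fun h h' => T_le hT h h'
  have hTlt : ∀ {a b : ℕ}, a < b → b ≤ 4 * m + 1 → T a < T b := fun h h' => T_lt hT h h'
  have hTI : ∀ n ≤ 4 * m + 1, T n ∈ Icc (0:ℝ) 2 := fun n hn =>
    ⟨by rw [← hT0]; exact hTle (Nat.zero_le _) hn, by rw [← hT2]; exact hTle hn le_rfl⟩
  have hsub : ∀ n ≤ 4 * m, Icc (T n) (T (n + 1)) ⊆ Icc (0:ℝ) 2 := fun n hn =>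
    Icc_subset_Icc (hTI n (by omega)).1 (hTI (n + 1) (by omega)).2
  have hσI : ∀ k < m, ∀ s ∈ Icc (T (4 * k + 1)) (T (4 * k + 2)),
      σ s ∈ Icc (T (4 * k + 3)) (T (4 * k + 4)) := by
    intro k hk s hs
    have h12 : T (4 * k + 1) ≤ T (4 * k + 2) := hTle (by omega) (by omega)
    constructor
    · rw [← (hσe k hk).1]
      exact (hσm k hk).monotoneOn ⟨le_rfl, h12⟩ hs hs.1
    · rw [← (hσe k hk).2]
      exact (hσm k hk).monotoneOn hs ⟨h12, le_rfl⟩ hs.2
  -- injectivity of the strands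
  have hinj : ∀ i, InjOn (γ i) (Icc 0 2) := by
    intro i s hs t ht hst
    rcases hco i i s hs t ht hst with h | h | h | ⟨k, _, h, _⟩ | ⟨k, _, h, _⟩
    · exact h.2
    · rw [h.1, h.2]
    · rw [h.1, h.2]
    · exact absurd h (one_ne_zero3 i)
    · exact absurd h (one_ne_zero3 i)
  -- the half of the main intersection lemma
  have hhalf : ∀ (n n' : ℕ) (s t : ℝ), n ≤ 4 * m → n' ≤ 4 * m → n' % 4 ≠ 3 →
      s ∈ Icc (T n) (T (n + 1)) → t ∈ Icc (T n') (T (n' + 1)) →
      (∃ k < m, s ∈ Icc (T (4 * k + 1)) (T (4 * k + 2)) ∧ t = σ s) →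
      (s = T n ∨ s = T (n + 1)) ∧ (t = T n' ∨ t = T (n' + 1)) := by
    rintro n n' s t hn hn' hn3 hs ht ⟨k, hk, hsk, rfl⟩
    have hI := hσI k hk s hsk
    have h12 : T (4 * k + 1) ≤ T (4 * k + 2) := hTle (by omega) (by omega)
    have hne : n' ≠ 4 * k + 3 := by
      rintro rfl
      omega
    rcases lt_or_gt_of_ne hne with h | h
    · -- the point is the left end
      have e1 : T (n' + 1) ≤ T (4 * k + 3) := hTle (by omega) (by omega)
      have e2 : σ s = T (4 * k + 3) := le_antisymm (ht.2.trans e1) hI.1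
      have e3 : σ s = T (n' + 1) := le_antisymm ht.2 (by rw [e2]; exact e1)
      have e4 : s = T (4 * k + 1) := by
        apply (hσm k hk).injOn hsk ⟨le_rfl, h12⟩
        rw [e2, (hσe k hk).1]
      refine ⟨?_, Or.inr e3⟩
      rw [e4] at hs ⊢
      exact T_mem hT (by omega) hn hs.1 hs.2
    · have e1 : T (4 * k + 4) ≤ T n' := hTle (by omega) (by omega)
      have e2 : σ s = T (4 * k + 4) := le_antisymm hI.2 (e1.trans ht.1)
      have e3 : σ s = T n' := le_antisymm (by rw [e2]; exact e1) ht.1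
      have e4 : s = T (4 * k + 2) := by
        apply (hσm k hk).injOn hsk ⟨h12, le_rfl⟩
        rw [e2, (hσe k hk).2]
      refine ⟨?_, Or.inl e3⟩
      rw [e4] at hs ⊢
      exact T_mem hT (by omega) hn hs.1 hs.2
  -- the main intersection lemma
  have hmain : ∀ (i j : ZMod 3) (n n' : ℕ) (s t : ℝ), n ≤ 4 * m → n' ≤ 4 * m → n % 4 ≠ 3 →
      n' % 4 ≠ 3 → s ∈ Icc (T n) (T (n + 1)) → t ∈ Icc (T n') (T (n' + 1)) → γ i s = γ j t →
      (n = n' ∧ i = j) ∨ ((s = T n ∨ s = T (n + 1)) ∧ (t = T n' ∨ t = T (n' + 1))) := by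
    intro i j n n' s t hn hn' hn3 hn3' hs ht hst
    rcases hco i j s (hsub n hn hs) t (hsub n' hn' ht) hst with
      h | h | h | ⟨k, hk, hij, hsk, hts⟩ | ⟨k, hk, hij, htk, hst'⟩
    · obtain ⟨rfl, rfl⟩ := h
      rcases lt_trichotomy n n' with h | h | h
      · right
        have e1 : T (n + 1) ≤ T n' := hTle h (by omega)
        exact ⟨Or.inr (le_antisymm hs.2 (e1.trans ht.1)), Or.inl (le_antisymm (hs.2.trans e1) ht.1)⟩
      · exact Or.inl ⟨h, rfl⟩
      · right
        have e1 : T (n' + 1) ≤ T n := hTle h (by omega)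
        exact ⟨Or.inl (le_antisymm (ht.2.trans e1) hs.1), Or.inr (le_antisymm ht.2 (e1.trans hs.1))⟩
    · right
      obtain ⟨rfl, rfl⟩ := h
      exact ⟨Or.inl (le_antisymm (hTI n (by omega)).1 hs.1),
        Or.inl (le_antisymm (hTI n' (by omega)).1 ht.1)⟩
    · right
      obtain ⟨rfl, rfl⟩ := h
      exact ⟨Or.inr (le_antisymm hs.2 (hTI (n + 1) (by omega)).2),
        Or.inr (le_antisymm ht.2 (hTI (n' + 1) (by omega)).2)⟩
    · right
      exact hhalf n n' s t hn hn' hn3' hs ht ⟨k, hk, hsk, hts⟩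
    · right
      exact (hhalf n' n t s hn' hn hn3 ht hs ⟨k, hk, htk, hst'⟩).symm
  -- the vertices
  have hpt : ∀ a < m, ∀ c < 3, ∀ κ < 2, ptF m T γ (6 * a + 3 * κ + c) =
      γ ((c : ZMod 3) - (a : ZMod 3)) (T (4 * a + 1 + κ)) := by
    intro a ha c hc κ hκ
    have h1 : (6 * a + 3 * κ + c) % 3 = c := by omega
    have h2 : (6 * a + 3 * κ + c) / 6 = a := by omega
    have h3 : (6 * a + 3 * κ + c) % 6 / 3 = κ := by omega
    unfold ptF
    rw [if_neg (by omega), if_neg (by omega), h1, h2, h3]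
  have hQ : ∀ a < m, ∀ c < 3, ptF m T γ (vQ m a c) =
      γ ((c : ZMod 3) - (a : ZMod 3)) (T (4 * a + 1)) := by
    intro a ha c hc
    have := hpt a ha c hc 0 (by omega)
    unfold vQ
    rw [if_neg (by omega)]
    simpa using this
  have hQm : ∀ c i, ptF m T γ (vQ m m c) = γ i (T (4 * m + 1)) := by
    intro c i
    unfold vQ ptF
    rw [if_pos rfl, if_neg (by omega), if_pos rfl, hT2]
    exact hγ2 _ _
  have hP : ∀ a < m, ∀ c < 3, ptF m T γ (vP m (a + 1) c) =
      γ ((c : ZMod 3) - (a : ZMod 3)) (T (4 * a + 2)) := by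
    intro a ha c hc
    have := hpt a ha c hc 1 (by omega)
    unfold vP
    rw [if_neg (by omega), show 6 * (a + 1 - 1) + 3 + c = 6 * a + 3 * 1 + c by omega]
    exact this
  have hP0 : ∀ c i, ptF m T γ (vP m 0 c) = γ i (T 0) := by
    intro c i
    unfold vP ptF
    rw [if_pos rfl, if_pos rfl, hT0]
    exact hγ0 _ _
  have hP' : ∀ a ≤ m, ∀ c < 3, ptF m T γ (vP m a c) =
      γ ((c : ZMod 3) - (a : ZMod 3)) (T (4 * a)) := by
    intro a ha c hc
    rcases Nat.eq_zero_or_pos a with rfl | hpos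
    · exact hP0 _ _
    · obtain ⟨b, rfl⟩ : ∃ b, a = b + 1 := ⟨a - 1, by omega⟩
      rw [hP b (by omega) c hc]
      have h1 : (c : ZMod 3) - (b : ZMod 3) = ((c : ZMod 3) - ((b + 1 : ℕ) : ZMod 3)) + 1 := by
        push_cast; ring
      rw [h1, hov b (by omega) (T (4 * b + 2)) ⟨hTle (by omega) (by omega), le_rfl⟩,
        (hσe b (by omega)).2]
      rfl
  have hQ' : ∀ a ≤ m, ∀ c < 3, ptF m T γ (vQ m a c) =
      γ ((c : ZMod 3) - (a : ZMod 3)) (T (4 * a + 1)) := by
    intro a ha c hc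
    rcases ha.lt_or_eq with h | h
    · exact hQ a h c hc
    · subst h
      exact hQm _ _
  have hQ'' : ∀ a < m, ∀ c < 3, ptF m T γ (vQ m a ((c + 1) % 3)) =
      γ ((c : ZMod 3) - (a : ZMod 3)) (T (4 * a + 3)) := by
    intro a ha c hc
    rw [hQ a ha _ (Nat.mod_lt _ (by norm_num))]
    have h1 : (((c + 1) % 3 : ℕ) : ZMod 3) - (a : ZMod 3) = ((c : ZMod 3) - (a : ZMod 3)) + 1 := by
      rw [ZMod.natCast_mod]
      push_cast; ring
    rw [h1, hov a ha (T (4 * a + 1)) ⟨le_rfl, hTle (by omega) (by omega)⟩, (hσe a ha).1]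
  -- ends of the edges
  have hsrc : ∀ e < 9 * m + 3, ptF m T γ (src m e) = γ (strand e) (T (idx e)) := by
    intro e he
    have hc : e % 3 < 3 := Nat.mod_lt _ (by norm_num)
    unfold src strand idx
    have h3 : e % 9 / 3 = 0 ∨ e % 9 / 3 = 1 ∨ e % 9 / 3 = 2 := by omega
    rcases h3 with h | h | h
    · rw [if_pos h, h]
      exact hP' (e / 9) (by omega) (e % 3) hc
    · rw [if_neg (by omega), if_pos h, h]
      exact hQ (e / 9) (by omega) (e % 3) hc
    · rw [if_neg (by omega), if_neg (by omega), h]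
      exact hP (e / 9) (by omega) (e % 3) hc
  have hdst : ∀ e < 9 * m + 3, ptF m T γ (dst m e) = γ (strand e) (T (idx e + 1)) := by
    intro e he
    have hc : e % 3 < 3 := Nat.mod_lt _ (by norm_num)
    unfold dst strand idx
    have h3 : e % 9 / 3 = 0 ∨ e % 9 / 3 = 1 ∨ e % 9 / 3 = 2 := by omega
    rcases h3 with h | h | h
    · rw [if_pos h, h]
      exact hQ' (e / 9) (by omega) (e % 3) hc
    · rw [if_neg (by omega), if_pos h, h]
      exact hP (e / 9) (by omega) (e % 3) hc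
    · rw [if_neg (by omega), if_neg (by omega), h]
      exact hQ'' (e / 9) (by omega) (e % 3) hc
  have hidx : ∀ e < 9 * m + 3, idx e ≤ 4 * m ∧ idx e % 4 ≠ 3 := by
    intro e he
    unfold idx
    constructor <;> omega
  refine ⟨⟨ptF m T γ, fun e => γ (strand e) '' Icc (T (idx e)) (T (idx e + 1)), ?_, ?_, ?_, ?_⟩⟩
  · -- injectivity of the vertices
    -- parameters of a vertex
    have hpar : ∀ v < 6 * m + 2, ∃ (i : ZMod 3) (n : ℕ), n ≤ 4 * m + 1 ∧ ptF m T γ v = γ i (T n) ∧
        ((v = 6 * m + 1 ∧ n = 0) ∨ (v = 6 * m ∧ n = 4 * m + 1) ∨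
          (v < 6 * m ∧ n = 4 * (v / 6) + 1 + v % 6 / 3 ∧
            i = ((v % 3 : ℕ) : ZMod 3) - ((v / 6 : ℕ) : ZMod 3))) := by
      intro v hv
      by_cases h1 : v = 6 * m + 1
      · refine ⟨0, 0, by omega, ?_, Or.inl ⟨h1, rfl⟩⟩
        unfold ptF
        rw [if_pos h1, hT0]
      · by_cases h2 : v = 6 * m
        · refine ⟨0, 4 * m + 1, le_rfl, ?_, Or.inr (Or.inl ⟨h2, rfl⟩)⟩
          unfold ptF
          rw [if_neg h1, if_pos h2, hT2]
        · refine ⟨_, _, ?_, ?_, Or.inr (Or.inr ⟨by omega, rfl, rfl⟩)⟩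
          · omega
          · unfold ptF
            rw [if_neg h1, if_neg h2]
    have hTinj : ∀ n ≤ 4 * m + 1, ∀ n' ≤ 4 * m + 1, T n = T n' → n = n' := by
      intro n hn n' hn' h
      rcases lt_trichotomy n n' with h1 | h1 | h1
      · exact absurd h (hTlt h1 hn').ne
      · exact h1
      · exact absurd h (hTlt h1 hn).ne'
    have hrange : ∀ n ≤ 4 * m + 1, ∀ l, l + 1 ≤ 4 * m + 1 → T n ∈ Icc (T l) (T (l + 1)) →
        n = l ∨ n = l + 1 := by
      intro n hn l hl h
      rcases T_mem hT hn (by omega) h.1 h.2 with h1 | h1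
      · exact Or.inl (hTinj _ hn _ (by omega) h1)
      · exact Or.inr (hTinj _ hn _ (by omega) h1)
    intro u hu v hv huv
    obtain ⟨i, n, hn, hui, hun⟩ := hpar u hu
    obtain ⟨j, n', hn', hvj, hvn⟩ := hpar v hv
    rw [hui, hvj] at huv
    -- no overlaps
    have hno : ∀ (w : ℕ) (l : ℕ) (q : ZMod 3), ((w = 6 * m + 1 ∧ l = 0) ∨
        (w = 6 * m ∧ l = 4 * m + 1) ∨
          (w < 6 * m ∧ l = 4 * (w / 6) + 1 + w % 6 / 3 ∧
            q = ((w % 3 : ℕ) : ZMod 3) - ((w / 6 : ℕ) : ZMod 3))) → ∀ k < m,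
        l ≠ 4 * k + 3 ∧ l ≠ 4 * k + 3 + 1 := by
      intro w l q h k hk
      omega
    rcases hco i j (T n) (hTI n hn) (T n') (hTI n' hn') huv with
      h | h | h | ⟨k, hk, hij, hsk, hts⟩ | ⟨k, hk, hij, htk, hst⟩
    · obtain ⟨hij, hnn⟩ := h
      have hnn := hTinj _ hn _ hn' hnn
      rcases hun with hun | hun | hun <;> rcases hvn with hvn | hvn | hvn
      · omega
      · omega
      · omega
      · omega
      · omega
      · omega
      · omega
      · omega
      · have h6 : u / 6 = v / 6 := by omega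
        have h63 : u % 6 / 3 = v % 6 / 3 := by omega
        have h3 : u % 3 = v % 3 := by
          apply natCast_inj3 (Nat.mod_lt _ (by norm_num)) (Nat.mod_lt _ (by norm_num))
          have := hij
          rw [hun.2.2, hvn.2.2, h6] at this
          exact sub_left_injective this
        omega
    · have e1 : n = 0 := hTinj n hn 0 (by omega) (by rw [h.1, hT0])
      have e2 : n' = 0 := hTinj n' hn' 0 (by omega) (by rw [h.2, hT0])
      omega
    · have e1 : n = 4 * m + 1 := hTinj n hn _ (by omega) (by rw [h.1, hT2])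
      have e2 : n' = 4 * m + 1 := hTinj n' hn' _ (by omega) (by rw [h.2, hT2])
      omega
    · have := hσI k hk _ hsk
      rw [← hts] at this
      have h1 := hrange n' hn' (4 * k + 3) (by omega) this
      have h2 := hno v n' j hvn k hk
      rcases h1 with h1 | h1
      · exact absurd h1 h2.1
      · exact absurd h1 h2.2
    · have := hσI k hk _ htk
      rw [← hst] at this
      have h1 := hrange n hn (4 * k + 3) (by omega) this
      have h2 := hno u n i hun k hk
      rcases h1 with h1 | h1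
      · exact absurd h1 h2.1
      · exact absurd h1 h2.2
  · -- the edges are arcs
    intro e he
    rw [hsrc e he, hdst e he]
    obtain ⟨hn, -⟩ := hidx e he
    have hlt : T (idx e) < T (idx e + 1) := hT _ hn
    have hmaps : ∀ u : unitInterval, T (idx e) + u * (T (idx e + 1) - T (idx e)) ∈
        Icc (T (idx e)) (T (idx e + 1)) := by
      intro u
      have h0 := u.2.1
      have h1 := u.2.2
      constructor
      · nlinarith
      · nlinarith
    refine arcBetween_of_map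
      (fun u : unitInterval => γ (strand e) (T (idx e) + u * (T (idx e + 1) - T (idx e))))
      ?_ ?_ ?_ ?_ ?_
    · apply (hγ (strand e)).comp_continuous
      · fun_prop
      · intro u
        exact hsub _ hn (hmaps u)
    · intro u v huv
      have := hinj _ (hsub _ hn (hmaps u)) (hsub _ hn (hmaps v)) huv
      have hne : T (idx e + 1) - T (idx e) ≠ 0 := (sub_pos.2 hlt).ne'
      have := add_left_cancel this
      exact Subtype.ext (mul_right_cancel₀ hne this)
    · ext y
      constructor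
      · rintro ⟨u, rfl⟩
        exact ⟨_, hmaps u, rfl⟩
      · rintro ⟨s, hs, rfl⟩
        have hpos : 0 < T (idx e + 1) - T (idx e) := sub_pos.2 hlt
        refine ⟨⟨(s - T (idx e)) / (T (idx e + 1) - T (idx e)), ?_, ?_⟩, ?_⟩
        · exact div_nonneg (sub_nonneg.2 hs.1) hpos.le
        · rw [div_le_one hpos]
          linarith [hs.2]
        · simp only
          rw [div_mul_cancel₀ _ hpos.ne']
          congr 1
          ring
    · simp
    · simp
  · -- intersections
    intro e he f hf hef y hy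
    obtain ⟨⟨s, hs, hsy⟩, ⟨t, ht, hty⟩⟩ := hy
    rw [hsrc e he, hdst e he, hsrc f hf, hdst f hf]
    obtain ⟨hn, hn3⟩ := hidx e he
    obtain ⟨hn', hn3'⟩ := hidx f hf
    rcases hmain _ _ _ _ s t hn hn' hn3 hn3' hs ht (by rw [hsy, hty]) with h | h
    · exfalso
      apply hef
      obtain ⟨h1, h2⟩ := h
      unfold idx at h1
      have h9 : e / 9 = f / 9 := by omega
      have h93 : e % 9 / 3 = f % 9 / 3 := by omega
      have h3 : e % 3 = f % 3 := by
        apply natCast_inj3 (Nat.mod_lt _ (by norm_num)) (Nat.mod_lt _ (by norm_num))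
        unfold strand at h2
        rw [h9] at h2
        exact sub_left_injective h2
      omega
    · constructor
      · rcases h.1 with h | h
        · left; rw [← h]; exact hsy.symm
        · right; rw [← h]; exact hsy.symm
      · rcases h.2 with h | h
        · left; rw [← h]; exact hty.symm
        · right; rw [← h]; exact hty.symm
  · -- union
    have hedge : ∀ (i : ZMod 3) (n : ℕ) (s : ℝ), n ≤ 4 * m → n % 4 ≠ 3 →
        s ∈ Icc (T n) (T (n + 1)) →
        γ i s ∈ ⋃ e ∈ Finset.range (9 * m + 3), γ (strand e) '' Icc (T (idx e)) (T (idx e + 1)) := by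
      intro i n s hn hn3 hs
      have hc : (i + ((n / 4 : ℕ) : ZMod 3)).val < 3 := ZMod.val_lt _
      obtain ⟨c, hc1, hc2⟩ : ∃ c : ℕ, c < 3 ∧ (c : ZMod 3) = i + ((n / 4 : ℕ) : ZMod 3) :=
        ⟨_, hc, ZMod.natCast_zmod_val _⟩
      simp only [mem_iUnion, Finset.mem_range]
      have e1 : (9 * (n / 4) + 3 * (n % 4) + c) / 9 = n / 4 := by omega
      have e2 : (9 * (n / 4) + 3 * (n % 4) + c) % 9 / 3 = n % 4 := by omega
      have e3 : (9 * (n / 4) + 3 * (n % 4) + c) % 3 = c := by omega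
      refine ⟨9 * (n / 4) + 3 * (n % 4) + c, by omega, s, ?_, ?_⟩
      · have : idx (9 * (n / 4) + 3 * (n % 4) + c) = n := by
          unfold idx
          rw [e1, e2]
          omega
        rw [this]
        exact hs
      · have : strand (9 * (n / 4) + 3 * (n % 4) + c) = i := by
          unfold strand
          rw [e1, e3, hc2]
          ring
        rw [this]
    apply Subset.antisymm
    · intro y hy
      simp only [mem_iUnion] at hy
      obtain ⟨i, s, hs, rfl⟩ := hy
      obtain ⟨n, hn, hsn⟩ := T_find hT0 hT2 hs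
      by_cases hn3 : n % 4 = 3
      · obtain ⟨k, rfl⟩ : ∃ k, n = 4 * k + 3 := ⟨n / 4, by omega⟩
        have hk : k < m := by omega
        obtain ⟨t, ht, rfl⟩ := hσs k hk hsn
        rw [← hov k hk t ht i]
        exact hedge (i + 1) (4 * k + 1) t (by omega) (by omega) ht
      · exact hedge i n s hn hn3 hsn
    · intro y hy
      simp only [mem_iUnion, Finset.mem_range] at hy
      obtain ⟨e, he, s, hs, rfl⟩ := hy
      simp only [mem_iUnion]
      exact ⟨strand e, s, hsub _ (hidx e he).1 hs, rfl⟩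

end Pool.Agent.Helper38.ACF
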