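import Mathlib.Data.ZMod.Basic
import Mathlib.Combinatorics.SimpleGraph.Basic
import Mathlib.Tactic

set_option autoImplicit false
set_option linter.unusedSectionVars false
set_option linter.unnecessarySeqFocus false

namespace Pool.Agent.Helper38.Judicious

open Finset

section basic

variable {V : Type} [DecidableEq V] (a : V → V → ℤ)

/-- number of ordered pairs (weighted by `a`) from `S` to `T` -/
def E (S T : Finset V) : ℤ := ∑ u ∈ S, ∑ v ∈ T, a u v

/-- degree of `v` into `S` -/
def d (v : V) (S : Finset V) : ℤ := ∑ u ∈ S, a v u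

lemma E_comm (hs : ∀ u v, a u v = a v u) (S T : Finset V) : E a S T = E a T S := by
  unfold E
  rw [Finset.sum_comm]
  exact Finset.sum_congr rfl fun v _ => Finset.sum_congr rfl fun u _ => hs u v

lemma E_union_left {S S' : Finset V} (h : Disjoint S S') (T : Finset V) :
    E a (S ∪ S') T = E a S T + E a S' T := by
  unfold E
  exact Finset.sum_union h

lemma E_union_right {T T' : Finset V} (h : Disjoint T T') (S : Finset V) :
    E a S (T ∪ T') = E a S T + E a S T' := by
  unfold E
  rw [← Finset.sum_add_distrib]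
  exact Finset.sum_congr rfl fun u _ => Finset.sum_union h

lemma E_singleton_left (v : V) (T : Finset V) : E a {v} T = d a v T := by
  simp [E, d]

lemma E_eq_sum_d (S T : Finset V) : E a S T = ∑ v ∈ S, d a v T := rfl

lemma E_empty_left (T : Finset V) : E a ∅ T = 0 := by simp [E]

lemma d_union {T T' : Finset V} (h : Disjoint T T') (v : V) :
    d a v (T ∪ T') = d a v T + d a v T' := by
  unfold d
  exact Finset.sum_union h

variable (hs : ∀ u v, a u v = a v u) (h0 : ∀ v, a v v = 0) (h01 : ∀ u v, a u v = 0 ∨ a u v = 1)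

include h01 in
lemma a_nonneg (u v : V) : 0 ≤ a u v := by
  rcases h01 u v with h | h <;> rw [h] <;> norm_num

include h01 in
lemma a_le_one (u v : V) : a u v ≤ 1 := by
  rcases h01 u v with h | h <;> rw [h] <;> norm_num

include h01 in
lemma d_nonneg (v : V) (S : Finset V) : 0 ≤ d a v S :=
  Finset.sum_nonneg fun u _ => a_nonneg a h01 v u

include h01 in
lemma E_nonneg (S T : Finset V) : 0 ≤ E a S T :=
  Finset.sum_nonneg fun u _ => d_nonneg a h01 u T

include h01 in
lemma d_mono (v : V) {S T : Finset V} (h : S ⊆ T) : d a v S ≤ d a v T :=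
  Finset.sum_le_sum_of_subset_of_nonneg h fun u _ _ => a_nonneg a h01 v u

include h01 in
lemma E_mono_left {S S' : Finset V} (h : S ⊆ S') (T : Finset V) : E a S T ≤ E a S' T :=
  Finset.sum_le_sum_of_subset_of_nonneg h fun u _ _ => d_nonneg a h01 u T

include h01 in
lemma E_mono_right (S : Finset V) {T T' : Finset V} (h : T ⊆ T') : E a S T ≤ E a S T' :=
  Finset.sum_le_sum fun u _ => d_mono a h01 u h

include hs h0 in
/-- insert a vertex -/
lemma E_insert_self (v : V) (S : Finset V) (hv : v ∉ S) :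
    E a (insert v S) (insert v S) = E a S S + 2 * d a v S := by
  have hd : Disjoint ({v} : Finset V) S := by simpa using hv
  rw [Finset.insert_eq, E_union_left a hd, E_union_right a hd, E_union_right a hd,
    E_comm a hs S {v}, E_singleton_left, E_singleton_left]
  have : d a v {v} = 0 := by simp [d, h0]
  rw [this]; ring

include hs h0 in
lemma E_erase_self (v : V) (S : Finset V) (hv : v ∈ S) :
    E a (S.erase v) (S.erase v) = E a S S - 2 * d a v S := by
  have h1 := E_insert_self a hs h0 v (S.erase v) (Finset.notMem_erase v S)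
  rw [Finset.insert_erase hv] at h1
  have h2 : d a v S = d a v (S.erase v) := by
    unfold d
    rw [← Finset.add_sum_erase S _ hv, h0]; ring
  rw [h1, h2]; ring

include h0 h01 in
lemma d_le_card (v : V) (S : Finset V) (hv : v ∈ S) : d a v S ≤ (S.card : ℤ) - 1 := by
  unfold d
  rw [← Finset.add_sum_erase S _ hv, h0]
  have : ∑ u ∈ S.erase v, a v u ≤ ∑ _u ∈ S.erase v, (1 : ℤ) :=
    Finset.sum_le_sum fun u _ => a_le_one a h01 v u
  have h2 : (∑ _u ∈ S.erase v, (1 : ℤ)) = (S.card : ℤ) - 1 := by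
    simp [Finset.card_erase_of_mem hv]
    have : 1 ≤ S.card := Finset.card_pos.mpr ⟨v, hv⟩
    push_cast [Nat.cast_sub this]; ring
  linarith

include h0 h01 in
lemma E_self_le (S : Finset V) : E a S S ≤ (S.card : ℤ) * ((S.card : ℤ) - 1) := by
  rw [E_eq_sum_d]
  calc ∑ v ∈ S, d a v S ≤ ∑ _v ∈ S, ((S.card : ℤ) - 1) :=
        Finset.sum_le_sum fun v hv => d_le_card a h0 h01 v S hv
    _ = _ := by rw [Finset.sum_const, nsmul_eq_mul]

end basic

section signs

lemma exists_sign_block {I : Type} [DecidableEq I] (B : I → I → ℤ) (hB : ∀ i j, B i j = B j i)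
    (s : Finset I) : ∃ ε : I → ℤ, (∀ i, ε i = 1 ∨ ε i = -1) ∧
      ∑ i ∈ s, ∑ j ∈ s, B i j * (ε i * ε j) ≤ ∑ i ∈ s, B i i := by
  induction s using Finset.induction_on with
  | empty => exact ⟨fun _ => 1, fun _ => Or.inl rfl, by simp⟩
  | insert i s hi ih =>
    obtain ⟨ε, hε, hle⟩ := ih
    -- choose the sign of `i`
    obtain ⟨η, hη, hη2⟩ : ∃ η : ℤ, (η = 1 ∨ η = -1) ∧ η * ∑ j ∈ s, B i j * ε j ≤ 0 := by
      rcases le_total (∑ j ∈ s, B i j * ε j) 0 with h | h
      · exact ⟨1, Or.inl rfl, by linarith⟩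
      · exact ⟨-1, Or.inr rfl, by linarith⟩
    refine ⟨fun x => if x = i then η else ε x, ?_, ?_⟩
    · intro x
      by_cases hx : x = i
      · simp [hx, hη]
      · simp [hx, hε x]
    · rw [Finset.sum_insert hi, Finset.sum_insert hi, Finset.sum_insert hi]
      have hne : ∀ j ∈ s, j ≠ i := fun j hj h => hi (h ▸ hj)
      have e1 : ∑ j ∈ s, B i j * ((if i = i then η else ε i) * (if j = i then η else ε j))
          = η * ∑ j ∈ s, B i j * ε j := by
        rw [Finset.mul_sum]
        refine Finset.sum_congr rfl fun j hj => ?_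
        rw [if_pos rfl, if_neg (hne j hj)]; ring
      have e2 : ∑ x ∈ s, ∑ j ∈ insert i s,
          B x j * ((if x = i then η else ε x) * (if j = i then η else ε j))
          = η * (∑ j ∈ s, B i j * ε j) + ∑ x ∈ s, ∑ j ∈ s, B x j * (ε x * ε j) := by
        rw [Finset.mul_sum, ← Finset.sum_add_distrib]
        refine Finset.sum_congr rfl fun x hx => ?_
        rw [Finset.sum_insert hi, if_neg (hne x hx), if_pos rfl, hB x i]
        congr 1
        · ring
        · refine Finset.sum_congr rfl fun j hj => ?_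
          rw [if_neg (hne j hj)]
      have e3 : (if i = i then η else ε i) * (if i = i then η else ε i) = 1 := by
        rw [if_pos rfl]
        rcases hη with h | h <;> rw [h] <;> norm_num
      rw [e1, e2, e3]
      linarith

variable {V : Type} [DecidableEq V] (a : V → V → ℤ) (hs : ∀ u v, a u v = a v u)

include hs in
lemma exists_sign_vertex {I : Type} [DecidableEq I] (β : V → I) (τ : V → ℤ)
    (hτ : ∀ v, τ v = 1 ∨ τ v = -1) (X : Finset V) :
    ∃ σ : V → ℤ, (∀ v, σ v = 1 ∨ σ v = -1) ∧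
      ∑ u ∈ X, ∑ v ∈ X, a u v * (σ u * σ v) ≤
        ∑ u ∈ X, ∑ v ∈ X, if β u = β v then a u v * (τ u * τ v) else 0 := by
  set B : I → I → ℤ := fun i j =>
    ∑ u ∈ X with β u = i, ∑ v ∈ X with β v = j, a u v * (τ u * τ v) with hBdef
  have hB : ∀ i j, B i j = B j i := by
    intro i j
    simp only [hBdef]
    rw [Finset.sum_comm]
    refine Finset.sum_congr rfl fun u _ => Finset.sum_congr rfl fun v _ => ?_
    rw [hs u v]; ring
  obtain ⟨ε, hε, hle⟩ := exists_sign_block B hB (X.image β)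
  refine ⟨fun v => ε (β v) * τ v, ?_, ?_⟩
  · intro v
    rcases hε (β v) with h | h <;> rcases hτ v with h' | h' <;> simp [h, h']
  · have hmaps : ∀ u ∈ X, β u ∈ X.image β := fun u hu => Finset.mem_image_of_mem β hu
    have e1 : ∑ u ∈ X, ∑ v ∈ X, a u v * ((ε (β u) * τ u) * (ε (β v) * τ v))
        = ∑ i ∈ X.image β, ∑ j ∈ X.image β, B i j * (ε i * ε j) := by
      rw [← Finset.sum_fiberwise_of_maps_to hmaps]
      refine Finset.sum_congr rfl fun i _ => ?_
      have : ∀ u ∈ X.filter (fun u => β u = i),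
          ∑ v ∈ X, a u v * ((ε (β u) * τ u) * (ε (β v) * τ v))
          = ∑ j ∈ X.image β, ∑ v ∈ X with β v = j, a u v * (τ u * τ v) * (ε i * ε j) := by
        intro u hu
        rw [← Finset.sum_fiberwise_of_maps_to hmaps]
        refine Finset.sum_congr rfl fun j _ => Finset.sum_congr rfl fun v hv => ?_
        rw [Finset.mem_filter] at hu hv
        rw [hu.2, hv.2]; ring
      rw [Finset.sum_congr rfl this, Finset.sum_comm]
      refine Finset.sum_congr rfl fun j _ => ?_
      simp only [hBdef]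
      rw [Finset.sum_mul]
      refine Finset.sum_congr rfl fun u _ => ?_
      rw [Finset.sum_mul]
    have e2 : ∑ u ∈ X, ∑ v ∈ X, (if β u = β v then a u v * (τ u * τ v) else 0)
        = ∑ i ∈ X.image β, B i i := by
      rw [← Finset.sum_fiberwise_of_maps_to hmaps]
      refine Finset.sum_congr rfl fun i _ => ?_
      simp only [hBdef]
      refine Finset.sum_congr rfl fun u hu => ?_
      rw [Finset.mem_filter] at hu
      rw [Finset.sum_filter]
      refine Finset.sum_congr rfl fun v _ => ?_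
      rw [hu.2]
      by_cases h : β v = i
      · simp [h]
      · simp [h, Ne.symm h]
    rw [e1, e2]
    exact hle

variable (h01 : ∀ u v, a u v = 0 ∨ a u v = 1)

include hs in
/-- a properly `k`-coloured set has a sign vector with `k * S ≤ - E`. -/
lemma color_cut (k : ℕ) [NeZero k] (f : V → ZMod k) (X : Finset V)
    (hf : ∀ u ∈ X, ∀ v ∈ X, a u v ≠ 0 → f u ≠ f v) :
    ∃ σ : V → ℤ, (∀ v, σ v = 1 ∨ σ v = -1) ∧
      (k : ℤ) * ∑ u ∈ X, ∑ v ∈ X, a u v * (σ u * σ v) ≤ - E a X X := by
  classical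
  -- sum over c
  have hsum : ∑ c : ZMod k, ∑ u ∈ X, ∑ v ∈ X, (if f u + f v = c then a u v else 0) = E a X X := by
    rw [Finset.sum_comm]
    refine Finset.sum_congr rfl fun u _ => ?_
    rw [Finset.sum_comm]
    refine Finset.sum_congr rfl fun v _ => ?_
    simp
  obtain ⟨c, hc⟩ : ∃ c : ZMod k, E a X X ≤
      (k : ℤ) * ∑ u ∈ X, ∑ v ∈ X, (if f u + f v = c then a u v else 0) := by
    by_contra hcon
    push Not at hcon
    have h1 : ∑ c : ZMod k, ((k : ℤ) * ∑ u ∈ X, ∑ v ∈ X, (if f u + f v = c then a u v else 0))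
        < ∑ _c : ZMod k, E a X X := by
      refine Finset.sum_lt_sum_of_nonempty ⟨0, Finset.mem_univ _⟩ fun c _ => hcon c
    rw [← Finset.mul_sum, hsum, Finset.sum_const, Finset.card_univ, ZMod.card, nsmul_eq_mul] at h1
    exact lt_irrefl _ h1
  obtain ⟨σ, hσ, hle⟩ := exists_sign_vertex a hs (fun v => s(f v, c - f v))
    (fun v => if (f v).val < (c - f v).val then (1 : ℤ) else -1)
    (fun v => by by_cases h : (f v).val < (c - f v).val <;> simp [h]) X
  refine ⟨σ, hσ, ?_⟩
  have key : ∑ u ∈ X, ∑ v ∈ X, (if s(f u, c - f u) = s(f v, c - f v) then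
      a u v * ((if (f u).val < (c - f u).val then (1 : ℤ) else -1) *
        (if (f v).val < (c - f v).val then (1 : ℤ) else -1)) else 0)
      = - ∑ u ∈ X, ∑ v ∈ X, (if f u + f v = c then a u v else 0) := by
    rw [← Finset.sum_neg_distrib]
    refine Finset.sum_congr rfl fun u hu => ?_
    rw [← Finset.sum_neg_distrib]
    refine Finset.sum_congr rfl fun v hv => ?_
    by_cases ha : a u v = 0
    · simp [ha]
    have hne := hf u hu v hv ha
    by_cases hc' : f u + f v = c
    · have h1 : c - f u = f v := by rw [← hc']; ring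
      have h2 : c - f v = f u := by rw [← hc']; ring
      rw [h1, h2, if_pos (Sym2.eq_swap), if_pos hc']
      have hval : (f u).val ≠ (f v).val := fun h => hne (ZMod.val_injective k h)
      rcases lt_or_gt_of_ne hval with h | h
      · rw [if_pos h, if_neg (not_lt.mpr h.le)]; ring
      · rw [if_neg (not_lt.mpr h.le), if_pos h]; ring
    · rw [if_neg hc', if_neg, neg_zero]
      intro h
      rw [Sym2.eq_iff] at h
      rcases h with h | h
      · exact hne h.1
      · apply hc'
        rw [h.1]; ring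
  rw [key] at hle
  have hk : (0 : ℤ) ≤ k := by positivity
  nlinarith [mul_le_mul_of_nonneg_left hle hk]

end signs

section colour

variable {V : Type} [DecidableEq V] (a : V → V → ℤ) (hs : ∀ u v, a u v = a v u)
  (h0 : ∀ v, a v v = 0) (h01 : ∀ u v, a u v = 0 ∨ a u v = 1)

include hs h0 h01 in
/-- a set spanning fewer than `k(k+1)` ordered edges is `k`-colourable -/
lemma exists_coloring_of_few (k : ℕ) [NeZero k] (N : ℕ) :
    ∀ Y : Finset V, Y.card = N → E a Y Y < (k : ℤ) * (k + 1) →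
      ∃ f : V → ZMod k, ∀ u ∈ Y, ∀ v ∈ Y, a u v ≠ 0 → f u ≠ f v := by
  induction N with
  | zero =>
    intro Y hY _
    rw [Finset.card_eq_zero] at hY
    subst hY
    exact ⟨fun _ => 0, by simp⟩
  | succ N ih =>
    intro Y hY hE
    by_cases hex : ∃ v ∈ Y, d a v Y < k
    · obtain ⟨v, hv, hdv⟩ := hex
      have hcard : (Y.erase v).card = N := by
        rw [Finset.card_erase_of_mem hv, hY]; rfl
      have hle : E a (Y.erase v) (Y.erase v) < (k : ℤ) * (k + 1) := by
        rw [E_erase_self a hs h0 v Y hv]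
        have := d_nonneg a h01 v Y
        linarith
      obtain ⟨f, hf⟩ := ih _ hcard hle
      -- a colour not used
      obtain ⟨c, hc⟩ : ∃ c : ZMod k, c ∉ (Y.filter (fun u => a v u ≠ 0)).image f := by
        by_contra hcon
        push Not at hcon
        have h1 : (Finset.univ : Finset (ZMod k)) ⊆ (Y.filter (fun u => a v u ≠ 0)).image f :=
          fun c _ => hcon c
        have h2 := (Finset.card_le_card h1).trans Finset.card_image_le
        rw [Finset.card_univ, ZMod.card] at h2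
        have h3 : ((Y.filter (fun u => a v u ≠ 0)).card : ℤ) = d a v Y := by
          unfold d
          rw [Finset.card_filter]
          push_cast
          refine Finset.sum_congr rfl fun u _ => ?_
          rcases h01 v u with h | h <;> simp [h]
        have h4 : (k : ℤ) ≤ ((Y.filter (fun u => a v u ≠ 0)).card : ℤ) := by exact_mod_cast h2
        omega
      refine ⟨Function.update f v c, ?_⟩
      intro x hx y hy hxy
      have hc' : ∀ u ∈ Y, a v u ≠ 0 → c ≠ f u := by
        intro u hu hau h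
        apply hc
        rw [Finset.mem_image]
        exact ⟨u, Finset.mem_filter.mpr ⟨hu, hau⟩, h.symm⟩
      by_cases hxv : x = v
      · subst hxv
        have hyx : y ≠ x := by
          rintro rfl
          exact hxy (h0 y)
        rw [Function.update_self, Function.update_of_ne hyx]
        exact hc' y hy hxy
      · by_cases hyv : y = v
        · subst hyv
          rw [Function.update_self, Function.update_of_ne hxv]
          rw [hs] at hxy
          exact (hc' x hx hxy).symm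
        · rw [Function.update_of_ne hxv, Function.update_of_ne hyv]
          exact hf x (Finset.mem_erase.mpr ⟨hxv, hx⟩) y (Finset.mem_erase.mpr ⟨hyv, hy⟩) hxy
    · push Not at hex
      exfalso
      have hne : Y.Nonempty := by
        rw [← Finset.card_pos, hY]; omega
      obtain ⟨v, hv⟩ := hne
      have h1 := hex v hv
      have h2 := d_le_card a h0 h01 v Y hv
      have h3 : (Y.card : ℤ) * k ≤ E a Y Y := by
        rw [E_eq_sum_d]
        calc (Y.card : ℤ) * k = ∑ _v ∈ Y, (k : ℤ) := by rw [Finset.sum_const, nsmul_eq_mul]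
          _ ≤ _ := Finset.sum_le_sum fun v hv => hex v hv
      have hk : (0 : ℤ) ≤ k := by positivity
      nlinarith

include hs h0 h01 in
/-- many disjoint non-adjacent pairs save colours -/
lemma exists_coloring_compl (r : ℤ) (hr : 1 ≤ r) (j : ℕ) :
    ∀ X : Finset V, (∀ v ∈ X, (X.card : ℤ) - 1 - d a v X ≤ r) →
      4 * r * j ≤ (X.card : ℤ) * (X.card - 1) - E a X X →
      ∃ K : ℕ, K + j ≤ X.card ∧ ∃ f : V → ℕ, (∀ v ∈ X, f v < K) ∧
        ∀ u ∈ X, ∀ v ∈ X, a u v ≠ 0 → f u ≠ f v := by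
  induction j with
  | zero =>
    intro X _ _
    refine ⟨X.card, by simp, fun v => if h : v ∈ X then (X.equivFin ⟨v, h⟩ : ℕ) else 0, ?_, ?_⟩
    · intro v hv
      simp [hv]
    · intro u hu v hv huv
      simp only [hu, hv, dif_pos]
      intro h
      have : (⟨u, hu⟩ : X) = ⟨v, hv⟩ := X.equivFin.injective (Fin.ext h)
      have huv' : u = v := congrArg Subtype.val this
      subst huv'
      exact huv (h0 u)
  | succ j ih =>
    intro X hdeg hbig
    obtain ⟨u, hu, v, hv, huv, hauv⟩ : ∃ u ∈ X, ∃ v ∈ X, u ≠ v ∧ a u v = 0 := by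
      by_contra hcon
      push Not at hcon
      have hE : (X.card : ℤ) * (X.card - 1) ≤ E a X X := by
        rw [E_eq_sum_d]
        calc (X.card : ℤ) * (X.card - 1) = ∑ _v ∈ X, ((X.card : ℤ) - 1) := by
              rw [Finset.sum_const, nsmul_eq_mul]
          _ ≤ _ := Finset.sum_le_sum fun v hv => by
              unfold d
              rw [← Finset.add_sum_erase X _ hv, h0]
              have : ∑ u ∈ X.erase v, a v u = ∑ _u ∈ X.erase v, (1 : ℤ) := by
                refine Finset.sum_congr rfl fun u hu => ?_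
                rw [Finset.mem_erase] at hu
                rcases h01 v u with h | h
                · exact absurd h (hcon v hv u hu.2 (Ne.symm hu.1))
                · exact h
              rw [this, Finset.sum_const, nsmul_eq_mul, Finset.card_erase_of_mem hv]
              have : 1 ≤ X.card := Finset.card_pos.mpr ⟨v, hv⟩
              push_cast [Nat.cast_sub this]; linarith
      push_cast at hbig
      nlinarith
    set X' := (X.erase u).erase v with hX'
    have hvX : v ∈ X.erase u := Finset.mem_erase.mpr ⟨huv.symm, hv⟩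
    have hcard1 : ((X.erase u).card : ℤ) = X.card - 1 := by
      rw [Finset.card_erase_of_mem hu]
      have : 1 ≤ X.card := Finset.card_pos.mpr ⟨u, hu⟩
      push_cast [Nat.cast_sub this]; ring
    have hcard : (X'.card : ℤ) = X.card - 2 := by
      rw [hX', Finset.card_erase_of_mem hvX]
      have : 1 ≤ (X.erase u).card := Finset.card_pos.mpr ⟨v, hvX⟩
      push_cast [Nat.cast_sub this]
      rw [hcard1]; ring
    have hdX : ∀ w, d a w X = a w u + a w v + d a w X' := by
      intro w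
      unfold d
      rw [← Finset.add_sum_erase X _ hu, ← Finset.add_sum_erase (X.erase u) _ hvX]
      ring
    have hEX : E a X' X' = E a X X - 2 * d a u X - 2 * d a v X := by
      rw [hX', E_erase_self a hs h0 v _ hvX, E_erase_self a hs h0 u X hu]
      have : d a v (X.erase u) = d a v X := by
        unfold d
        rw [← Finset.add_sum_erase X _ hu, hs v u, hauv]; ring
      rw [this]
    have hsub : ∀ w ∈ X', w ∈ X := fun w hw =>
      Finset.mem_of_mem_erase (Finset.mem_of_mem_erase hw)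
    obtain ⟨K, hK, f, hf1, hf2⟩ := ih X' (by
        intro w hw
        have h1 := hdeg w (hsub w hw)
        have h2 := hdX w
        have h3 := a_le_one a h01 w u
        have h4 := a_le_one a h01 w v
        rw [hcard]; linarith) (by
        have h1 := hdeg u hu
        have h2 := hdeg v hv
        rw [hEX, hcard]
        push_cast at hbig
        nlinarith)
    refine ⟨K + 1, by
      have h1 : ((K + j : ℕ) : ℤ) ≤ X'.card := by exact_mod_cast hK
      rw [hcard] at h1
      push_cast at h1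
      omega, fun w => if w = u ∨ w = v then K else f w, ?_, ?_⟩
    · intro w hw
      by_cases h : w = u ∨ w = v
      · simp [h]
      · simp only [h, if_false]
        have : w ∈ X' := by
          push Not at h
          exact Finset.mem_erase.mpr ⟨h.2, Finset.mem_erase.mpr ⟨h.1, hw⟩⟩
        exact Nat.lt_succ_of_lt (hf1 w this)
    · intro x hx y hy hxy
      by_cases h : x = u ∨ x = v
      · by_cases h' : y = u ∨ y = v
        · exfalso
          apply hxy
          rcases h with h | h <;> rcases h' with h' | h' <;> subst h <;> subst h'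
          · exact h0 _
          · exact hauv
          · rw [hs]; exact hauv
          · exact h0 _
        · simp only [h, h', if_true, if_false]
          have : y ∈ X' := by
            push Not at h'
            exact Finset.mem_erase.mpr ⟨h'.2, Finset.mem_erase.mpr ⟨h'.1, hy⟩⟩
          exact (hf1 y this).ne'
      · have hx' : x ∈ X' := by
          push Not at h
          exact Finset.mem_erase.mpr ⟨h.2, Finset.mem_erase.mpr ⟨h.1, hx⟩⟩
        by_cases h' : y = u ∨ y = v
        · simp only [h, h', if_true, if_false]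
          exact (hf1 x hx').ne
        · simp only [h, h', if_false]
          have : y ∈ X' := by
            push Not at h'
            exact Finset.mem_erase.mpr ⟨h'.2, Finset.mem_erase.mpr ⟨h'.1, hy⟩⟩
          exact hf2 x hx' y this hxy

end colour

/-- arithmetic core -/
lemma arith_core (t n N P Q C : ℤ) (ht : 1 ≤ t) (hn : n = 10000 * t ^ 2) (hN : 0 ≤ N)
    (hPQC : P + Q + 2 * C = 4 * n ^ 2 - 2 * n) (hCP : P ≤ C)
    (hsum : N * (n ^ 2 - 2 * t + 1) ≤ N * Q + 2 * C)
    (hPN : P ≤ N * (N - 1)) (hP : n ^ 2 - 2 * t + 1 ≤ P) :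
    n + 1 ≤ N ∧ P ≤ n ^ 2 + t ∧ C ≤ n ^ 2 + 2 * t - 1 ∧ N ≤ n + 4 * t := by
  have hnt : 10000 * t ≤ n := by nlinarith
  have hnpos : 0 < n := by linarith
  have h1 : n + 1 ≤ N := by
    by_contra h
    have h' : N ≤ n := by linarith
    have : N * (N - 1) ≤ n * (n - 1) := by nlinarith
    nlinarith
  -- (2N-2) C ≤ N (M2 - T2 - 1 - P)
  have hQ : Q = 4 * n ^ 2 - 2 * n - P - 2 * C := by linarith
  subst hQ
  have hkey : (2 * N - 2) * C ≤ N * (3 * n ^ 2 - 2 * n + 2 * t - 1 - P) := by nlinarith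
  have hkeyP : (2 * N - 2) * P ≤ N * (3 * n ^ 2 - 2 * n + 2 * t - 1 - P) := by
    have : (2 * N - 2) * P ≤ (2 * N - 2) * C := by
      apply mul_le_mul_of_nonneg_left hCP; linarith
    linarith
  have h2 : P ≤ n ^ 2 + t := by
    by_contra h
    have h' : n ^ 2 + t + 1 ≤ P := by linarith
    have e1 : (3 * N - 2) * (n ^ 2 + t + 1) ≤ (3 * N - 2) * P := by
      apply mul_le_mul_of_nonneg_left h'; linarith
    have e2 : (3 * N - 2) * P ≤ N * (3 * n ^ 2 - 2 * n + 2 * t - 1) := by linarith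
    have e3 : N * (2 * n + t + 4) ≤ 2 * (n ^ 2 + t + 1) := by linarith
    have e4 : (n + 1) * (2 * n + t + 4) ≤ N * (2 * n + t + 4) := by
      apply mul_le_mul_of_nonneg_right h1; linarith
    nlinarith
  have h3 : C ≤ n ^ 2 + 2 * t - 1 := by
    by_contra h
    have h' : n ^ 2 + 2 * t ≤ C := by linarith
    have e1 : (2 * N - 2) * (n ^ 2 + 2 * t) ≤ (2 * N - 2) * C := by
      apply mul_le_mul_of_nonneg_left h'; linarith
    have e2 : N * (3 * n ^ 2 - 2 * n + 2 * t - 1 - P) ≤
        N * (2 * n ^ 2 - 2 * n + 4 * t - 2) := by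
      apply mul_le_mul_of_nonneg_left _ hN; linarith
    have e3 : N * (2 * n + 2) ≤ 2 * (n ^ 2 + 2 * t) := by linarith
    have e4 : (n + 1) * (2 * n + 2) ≤ N * (2 * n + 2) := by
      apply mul_le_mul_of_nonneg_right h1; linarith
    nlinarith
  have h4 : N ≤ n + 4 * t := by
    by_contra h
    have h' : n + 4 * t + 1 ≤ N := by linarith
    have e1 : (3 * N - 2) * (n ^ 2 - 2 * t + 1) ≤ (3 * N - 2) * P := by
      apply mul_le_mul_of_nonneg_left hP; linarith
    have e2 : (3 * N - 2) * P ≤ N * (3 * n ^ 2 - 2 * n + 2 * t - 1) := by linarith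
    have e3 : N * (2 * n - 8 * t + 4) ≤ 2 * (n ^ 2 - 2 * t + 1) := by linarith
    have e4 : (n + 4 * t + 1) * (2 * n - 8 * t + 4) ≤ N * (2 * n - 8 * t + 4) := by
      apply mul_le_mul_of_nonneg_right h'; linarith
    nlinarith
  exact ⟨h1, h2, h3, h4⟩

section main

variable {V : Type} [Fintype V] [DecidableEq V] (a : V → V → ℤ) (hs : ∀ u v, a u v = a v u)
  (h0 : ∀ v, a v v = 0) (h01 : ∀ u v, a u v = 0 ∨ a u v = 1)

include hs in
lemma E_split (S : Finset V) :
    E a Finset.univ Finset.univ = E a S S + E a Sᶜ Sᶜ + 2 * E a S Sᶜ := by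
  have hd : Disjoint S Sᶜ := disjoint_compl_right
  have hu : S ∪ Sᶜ = Finset.univ := Finset.union_compl S
  rw [← hu, E_union_left a hd, E_union_right a hd, E_union_right a hd, E_comm a hs Sᶜ S]
  ring

include hs in
/-- signed sum and cuts: if every cut is small, every signed sum is large. -/
lemma signed_sum_cut (σ : V → ℤ) (hσ : ∀ v, σ v = 1 ∨ σ v = -1) :
    ∃ S : Finset V, ∑ u, ∑ v, a u v * (σ u * σ v)
      = E a Finset.univ Finset.univ - 4 * E a S Sᶜ := by
  refine ⟨Finset.univ.filter (fun v => σ v = 1), ?_⟩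
  set S := Finset.univ.filter (fun v => σ v = 1) with hS
  have h1 : ∀ v ∈ S, σ v = 1 := fun v hv => (Finset.mem_filter.mp hv).2
  have h2 : ∀ v ∈ Sᶜ, σ v = -1 := fun v hv => by
    have : v ∉ S := Finset.mem_compl.mp hv
    rcases hσ v with h | h
    · exact absurd (by rw [hS, Finset.mem_filter]; exact ⟨Finset.mem_univ v, h⟩) this
    · exact h
  have hsplit := E_split a hs S
  have e : ∀ u, ∑ v, a u v * (σ u * σ v) = σ u * (d a u S - d a u Sᶜ) := by
    intro u
    rw [← Finset.sum_add_sum_compl S]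
    have e1 : ∑ v ∈ S, a u v * (σ u * σ v) = σ u * d a u S := by
      unfold d
      rw [Finset.mul_sum]
      refine Finset.sum_congr rfl fun v hv => ?_
      rw [h1 v hv]; ring
    have e2 : ∑ v ∈ Sᶜ, a u v * (σ u * σ v) = - (σ u * d a u Sᶜ) := by
      unfold d
      rw [Finset.mul_sum, ← Finset.sum_neg_distrib]
      refine Finset.sum_congr rfl fun v hv => ?_
      rw [h2 v hv]; ring
    rw [e1, e2]; ring
  rw [Finset.sum_congr rfl fun u _ => e u, ← Finset.sum_add_sum_compl S]
  have e1 : ∑ u ∈ S, σ u * (d a u S - d a u Sᶜ) = E a S S - E a S Sᶜ := by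
    rw [E_eq_sum_d, E_eq_sum_d, ← Finset.sum_sub_distrib]
    refine Finset.sum_congr rfl fun v hv => ?_
    rw [h1 v hv]; ring
  have e2 : ∑ u ∈ Sᶜ, σ u * (d a u S - d a u Sᶜ) = E a Sᶜ Sᶜ - E a Sᶜ S := by
    rw [E_eq_sum_d, E_eq_sum_d, ← Finset.sum_sub_distrib]
    refine Finset.sum_congr rfl fun v hv => ?_
    rw [h2 v hv]; ring
  rw [e1, e2, hsplit, E_comm a hs Sᶜ S]
  ring

include hs in
/-- gluing two sign vectors -/
lemma glue_signs (X : Finset V) (σ τ : V → ℤ) (hσ : ∀ v, σ v = 1 ∨ σ v = -1)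
    (hτ : ∀ v, τ v = 1 ∨ τ v = -1) :
    ∃ ρ : V → ℤ, (∀ v, ρ v = 1 ∨ ρ v = -1) ∧
      ∑ u, ∑ v, a u v * (ρ u * ρ v) ≤
        ∑ u ∈ X, ∑ v ∈ X, a u v * (σ u * σ v) + ∑ u ∈ Xᶜ, ∑ v ∈ Xᶜ, a u v * (τ u * τ v) := by
  obtain ⟨η, hη, hη2⟩ : ∃ η : ℤ, (η = 1 ∨ η = -1) ∧
      η * ∑ u ∈ X, ∑ v ∈ Xᶜ, a u v * (σ u * τ v) ≤ 0 := by
    rcases le_total (∑ u ∈ X, ∑ v ∈ Xᶜ, a u v * (σ u * τ v)) 0 with h | h
    · exact ⟨1, Or.inl rfl, by linarith⟩
    · exact ⟨-1, Or.inr rfl, by linarith⟩
  have hηη : η * η = 1 := by rcases hη with h | h <;> rw [h] <;> norm_num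
  refine ⟨fun v => if v ∈ X then σ v else η * τ v, ?_, ?_⟩
  · intro v
    by_cases hv : v ∈ X
    · simp [hv, hσ v]
    · rcases hη with h | h <;> rcases hτ v with h' | h' <;> simp [hv, h, h']
  · set ρ : V → ℤ := fun v => if v ∈ X then σ v else η * τ v with hρ
    have r1 : ∀ v ∈ X, ρ v = σ v := fun v hv => by simp [hρ, hv]
    have r2 : ∀ v ∈ Xᶜ, ρ v = η * τ v := fun v hv => by
      have : v ∉ X := Finset.mem_compl.mp hv
      simp [hρ, this]
    have s1 : ∑ u ∈ X, ∑ v ∈ X, a u v * (ρ u * ρ v) = ∑ u ∈ X, ∑ v ∈ X, a u v * (σ u * σ v) :=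
      Finset.sum_congr rfl fun u hu => Finset.sum_congr rfl fun v hv => by
        rw [r1 u hu, r1 v hv]
    have s2 : ∑ u ∈ Xᶜ, ∑ v ∈ Xᶜ, a u v * (ρ u * ρ v)
        = ∑ u ∈ Xᶜ, ∑ v ∈ Xᶜ, a u v * (τ u * τ v) :=
      Finset.sum_congr rfl fun u hu => Finset.sum_congr rfl fun v hv => by
        rw [r2 u hu, r2 v hv]
        linear_combination (a u v * (τ u * τ v)) * hηη
    have s3 : ∑ u ∈ X, ∑ v ∈ Xᶜ, a u v * (ρ u * ρ v)
        = η * ∑ u ∈ X, ∑ v ∈ Xᶜ, a u v * (σ u * τ v) := by
      rw [Finset.mul_sum]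
      refine Finset.sum_congr rfl fun u hu => ?_
      rw [Finset.mul_sum]
      refine Finset.sum_congr rfl fun v hv => ?_
      rw [r1 u hu, r2 v hv]; ring
    have s4 : ∑ u ∈ Xᶜ, ∑ v ∈ X, a u v * (ρ u * ρ v)
        = ∑ u ∈ X, ∑ v ∈ Xᶜ, a u v * (ρ u * ρ v) := by
      rw [Finset.sum_comm]
      refine Finset.sum_congr rfl fun u _ => Finset.sum_congr rfl fun v _ => ?_
      rw [hs v u]; ring
    have stot : ∑ u, ∑ v, a u v * (ρ u * ρ v) =
        ∑ u ∈ X, ∑ v ∈ X, a u v * (ρ u * ρ v) + ∑ u ∈ X, ∑ v ∈ Xᶜ, a u v * (ρ u * ρ v)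
        + (∑ u ∈ Xᶜ, ∑ v ∈ X, a u v * (ρ u * ρ v)
          + ∑ u ∈ Xᶜ, ∑ v ∈ Xᶜ, a u v * (ρ u * ρ v)) := by
      rw [← Finset.sum_add_distrib, ← Finset.sum_add_distrib,
        ← Finset.sum_add_sum_compl X (fun u => ∑ v, a u v * (ρ u * ρ v))]
      congr 1
      · exact Finset.sum_congr rfl fun u _ => (Finset.sum_add_sum_compl X _).symm
      · exact Finset.sum_congr rfl fun u _ => (Finset.sum_add_sum_compl X _).symm
    rw [stot, s4, s3, s1, s2]
    linarith

include hs h0 h01 in
theorem main_int (t n : ℤ) (ht : 1 ≤ t) (hn : n = 10000 * t ^ 2)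
    (hm : E a Finset.univ Finset.univ = 4 * n ^ 2 - 2 * n) :
    ∃ S : Finset V, E a S S ≤ n ^ 2 - 2 * t ∧ E a Sᶜ Sᶜ ≤ n ^ 2 - 2 * t := by
  by_contra hcon
  push Not at hcon
  have hnt : 10000 * t ≤ n := by nlinarith
  -- maximum cut
  obtain ⟨V0, hV0⟩ := Finite.exists_max (fun S : Finset V => E a S Sᶜ)
  obtain ⟨V1, hmax, hV1⟩ : ∃ V1 : Finset V, (∀ S, E a S Sᶜ ≤ E a V1 V1ᶜ) ∧
      E a V1ᶜ V1ᶜ ≤ E a V1 V1 := by
    rcases le_total (E a V0ᶜ V0ᶜ) (E a V0 V0) with h | h
    · exact ⟨V0, hV0, h⟩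
    · refine ⟨V0ᶜ, fun S => ?_, by rw [compl_compl]; exact h⟩
      rw [compl_compl, E_comm a hs V0ᶜ V0]
      exact hV0 S
  have hT : n ^ 2 - 2 * t < E a V1 V1 := by
    by_contra h
    have h' := hcon V1 (not_lt.mp h)
    linarith
  -- local optimality
  have hloc : ∀ v ∈ V1, d a v V1 ≤ d a v V1ᶜ := by
    intro v hv
    have e1 := hmax (V1.erase v)
    have e2 := E_split a hs V1
    have e3 := E_split a hs (V1.erase v)
    have e4 := E_erase_self a hs h0 v V1 hv
    have e5 : E a (V1.erase v)ᶜ (V1.erase v)ᶜ = E a V1ᶜ V1ᶜ + 2 * d a v V1ᶜ := by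
      rw [Finset.compl_erase]
      exact E_insert_self a hs h0 v V1ᶜ (by simpa using hv)
    linarith
  -- minimal X
  obtain ⟨X, hXmem, hXmin⟩ := Finset.exists_min_image
    (V1.powerset.filter (fun X => n ^ 2 - 2 * t < E a X X)) (fun X => X.card)
    ⟨V1, by simp [hT]⟩
  rw [Finset.mem_filter, Finset.mem_powerset] at hXmem
  obtain ⟨hXV, hXT⟩ := hXmem
  have hXe : ∀ v ∈ X, E a (X.erase v) (X.erase v) ≤ n ^ 2 - 2 * t := by
    intro v hv
    by_contra h
    have h' := hXmin (X.erase v) (by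
      rw [Finset.mem_filter, Finset.mem_powerset]
      exact ⟨(Finset.erase_subset _ _).trans hXV, not_le.mp h⟩)
    rw [Finset.card_erase_of_mem hv] at h'
    have : 1 ≤ X.card := Finset.card_pos.mpr ⟨v, hv⟩
    omega
  have hYe : ∀ v ∈ X, n ^ 2 - 2 * t + 1 ≤ E a Xᶜ Xᶜ + 2 * d a v Xᶜ := by
    intro v hv
    have h := hcon (X.erase v) (hXe v hv)
    rw [Finset.compl_erase, E_insert_self a hs h0 v Xᶜ (by simpa using hv)] at h
    linarith
  set D := V1 \ X with hD
  have hV1XD : V1 = X ∪ D := (Finset.union_sdiff_of_subset hXV).symm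
  have hXD : Disjoint X D := Finset.disjoint_sdiff
  have hYD : Xᶜ = V1ᶜ ∪ D := by
    ext v
    simp only [Finset.mem_compl, Finset.mem_union, hD, Finset.mem_sdiff]
    by_cases h1 : v ∈ V1 <;> by_cases h2 : v ∈ X <;> simp [h1, h2]
    exact h1 (hXV h2)
  have hYDd : Disjoint V1ᶜ D := by
    rw [Finset.disjoint_left]
    intro v hv hv2
    rw [Finset.mem_compl] at hv
    rw [hD, Finset.mem_sdiff] at hv2
    exact hv hv2.1
  have hdY : ∀ v ∈ X, d a v X + 2 * d a v D ≤ d a v Xᶜ := by
    intro v hv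
    have h1 := hloc v (hXV hv)
    rw [hV1XD, d_union a hXD, ← hV1XD] at h1
    rw [hYD, d_union a hYDd]
    linarith
  have hCP2 : E a X X + 2 * E a X D ≤ E a X Xᶜ := by
    rw [E_eq_sum_d, E_eq_sum_d, E_eq_sum_d, Finset.mul_sum, ← Finset.sum_add_distrib]
    exact Finset.sum_le_sum hdY
  have hDnn : 0 ≤ E a X D := E_nonneg a h01 X D
  have hCP : E a X X ≤ E a X Xᶜ := by linarith
  have hPQC := E_split a hs X
  rw [hm] at hPQC
  have hsum : (X.card : ℤ) * (n ^ 2 - 2 * t + 1) ≤
      (X.card : ℤ) * E a Xᶜ Xᶜ + 2 * E a X Xᶜ := by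
    have h1 : ∑ _v ∈ X, (n ^ 2 - 2 * t + 1) ≤ ∑ v ∈ X, (E a Xᶜ Xᶜ + 2 * d a v Xᶜ) :=
      Finset.sum_le_sum hYe
    rw [Finset.sum_const, nsmul_eq_mul, Finset.sum_add_distrib, Finset.sum_const, nsmul_eq_mul,
      ← Finset.mul_sum, ← E_eq_sum_d] at h1
    exact h1
  have hPN := E_self_le a h0 h01 X
  obtain ⟨hN1, hP2, hC2, hN2⟩ := arith_core t n X.card (E a X X) (E a Xᶜ Xᶜ) (E a X Xᶜ) ht hn
    (Int.natCast_nonneg _) (by linarith) hCP hsum hPN (by linarith)
  -- degrees
  have hdY2 : ∀ v ∈ X, n - 4 * t + 2 ≤ d a v Xᶜ := by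
    intro v hv
    have := hYe v hv
    linarith
  have hdX2 : ∀ v ∈ X, n - 8 * t + 4 ≤ d a v X := by
    intro v hv
    have h1 : ∑ w ∈ X, (d a w Xᶜ - d a w X) = E a X Xᶜ - E a X X := by
      rw [Finset.sum_sub_distrib, ← E_eq_sum_d, ← E_eq_sum_d]
    have h2 : d a v Xᶜ - d a v X ≤ ∑ w ∈ X, (d a w Xᶜ - d a w X) := by
      refine Finset.single_le_sum (f := fun w => d a w Xᶜ - d a w X) (fun w hw => ?_) hv
      have h3 := hdY w hw
      have h4 := d_nonneg a h01 w D
      show 0 ≤ d a w Xᶜ - d a w X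
      linarith
    have h3 := hdY2 v hv
    linarith
  have hXne : X.Nonempty := by
    rw [← Finset.card_pos]
    have : (0 : ℤ) < X.card := by linarith
    exact_mod_cast this
  -- a vertex of small degree to the complement
  obtain ⟨v0, hv0, hv0min⟩ := Finset.exists_min_image X (fun v => d a v Xᶜ) hXne
  have hv0C : (X.card : ℤ) * d a v0 Xᶜ ≤ E a X Xᶜ := by
    rw [E_eq_sum_d]
    calc (X.card : ℤ) * d a v0 Xᶜ = ∑ _v ∈ X, d a v0 Xᶜ := by
          rw [Finset.sum_const, nsmul_eq_mul]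
      _ ≤ _ := Finset.sum_le_sum fun v hv => hv0min v hv
  have hv0Q : E a Xᶜ Xᶜ + 2 * d a v0 Xᶜ ≤ n ^ 2 - 2 * t + 8 * t := by
    by_contra h
    have h' : n ^ 2 - 2 * t + 8 * t + 1 ≤ E a Xᶜ Xᶜ + 2 * d a v0 Xᶜ := by linarith
    have hNpos : (0 : ℤ) < X.card := by linarith
    have e1 : (X.card : ℤ) * (n ^ 2 - 2 * t + 8 * t + 1) ≤
        X.card * (E a Xᶜ Xᶜ + 2 * d a v0 Xᶜ) := mul_le_mul_of_nonneg_left h' hNpos.le
    have e2 : (X.card : ℤ) * E a Xᶜ Xᶜ = X.card * (4 * n ^ 2 - 2 * n - E a X X - 2 * E a X Xᶜ) := by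
      congr 1; linarith
    have e3 : (2 * (X.card : ℤ) - 2) * E a X X ≤ (2 * (X.card : ℤ) - 2) * E a X Xᶜ := by
      apply mul_le_mul_of_nonneg_left hCP; linarith
    have e4 : (3 * (X.card : ℤ) - 2) * (n ^ 2 - 2 * t + 1) ≤ (3 * (X.card : ℤ) - 2) * E a X X := by
      apply mul_le_mul_of_nonneg_left _ (by linarith); linarith
    have e5 : (n + 1) * (2 * n + 4) ≤ (X.card : ℤ) * (2 * n + 4) := by
      apply mul_le_mul_of_nonneg_right hN1; linarith
    nlinarith
  -- the incidence count of subsets of D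
  have hinc : ∀ D' : Finset V, D' ⊆ D →
      E a D' D' + 2 * E a D' (Xᶜ \ D') ≤ 8 * t - 1 := by
    intro D'
    induction D' using Finset.induction_on with
    | empty => intro _; rw [E_empty_left, E_empty_left]; linarith
    | insert u D'' hu ih =>
      intro hsub
      have ih' := ih ((Finset.subset_insert _ _).trans hsub)
      have huD : u ∈ D := hsub (Finset.mem_insert_self _ _)
      have hD''D : D'' ⊆ D := (Finset.subset_insert _ _).trans hsub
      have hDX : ∀ w ∈ D, w ∉ X := fun w hw => (Finset.mem_sdiff.mp (hD ▸ hw)).2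
      have huY : u ∈ Xᶜ \ D'' :=
        Finset.mem_sdiff.mpr ⟨Finset.mem_compl.mpr (hDX u huD), hu⟩
      -- E(D',D') is small
      have hEsmall : E a (insert u D'') (insert u D'') ≤ 8 * t - 1 := by
        rw [E_insert_self a hs h0 u D'' hu]
        have h1 : d a u D'' ≤ E a D'' (Xᶜ \ D'') := by
          rw [← E_singleton_left, E_comm a hs]
          exact E_mono_right a h01 D'' (Finset.singleton_subset_iff.mpr huY)
        linarith
      set D' := insert u D'' with hD'
      -- the partition Z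
      set Z := (X.erase v0) ∪ D' with hZ
      have hdisj : Disjoint (X.erase v0) D' := by
        rw [Finset.disjoint_left]
        intro w hw hw2
        exact hDX w (hsub hw2) (Finset.mem_of_mem_erase hw)
      have hEZ : E a Z Z ≤ n ^ 2 - 2 * t := by
        rw [hZ, E_union_left a hdisj, E_union_right a hdisj, E_union_right a hdisj,
          E_comm a hs D' (X.erase v0), E_erase_self a hs h0 v0 X hv0]
        have h1 : E a (X.erase v0) D' ≤ E a X D :=
          (E_mono_left a h01 (Finset.erase_subset _ _) D').trans (E_mono_right a h01 X hsub)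
        have h2 := hdX2 v0 hv0
        linarith
      have hZc := hcon Z hEZ
      have hZcompl : Zᶜ = insert v0 (Xᶜ \ D') := by
        ext w
        simp only [hZ, Finset.mem_compl, Finset.mem_union, Finset.mem_erase, Finset.mem_insert,
          Finset.mem_sdiff]
        have hv0D : v0 ∉ D' := fun h => hDX v0 (hsub h) hv0
        by_cases hw : w = v0
        · subst hw
          simp [hv0D]
        · by_cases h1 : w ∈ X <;> by_cases h2 : w ∈ D' <;> simp [hw, h1, h2]
      have hv0n : v0 ∉ Xᶜ \ D' := by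
        simp [hv0]
      rw [hZcompl, E_insert_self a hs h0 v0 _ hv0n] at hZc
      have hd0 : d a v0 (Xᶜ \ D') ≤ d a v0 Xᶜ := d_mono a h01 v0 Finset.sdiff_subset
      have hD'Y : D' ⊆ Xᶜ := fun w hw => Finset.mem_compl.mpr (hDX w (hsub hw))
      have hdis2 : Disjoint D' (Xᶜ \ D') := Finset.disjoint_sdiff
      have hYY : E a Xᶜ Xᶜ = E a D' D' + 2 * E a D' (Xᶜ \ D') + E a (Xᶜ \ D') (Xᶜ \ D') := by
        conv_lhs => rw [← Finset.union_sdiff_of_subset hD'Y]
        rw [E_union_left a hdis2, E_union_right a hdis2, E_union_right a hdis2,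
          E_comm a hs (Xᶜ \ D') D']
        ring
      linarith
  have hDV : 2 * E a D V1ᶜ ≤ 8 * t - 1 := by
    have h1 := hinc D (Finset.Subset.refl _)
    have h2 := E_nonneg a h01 D D
    have h3 : Xᶜ \ D = V1ᶜ := by
      rw [hYD, Finset.union_sdiff_cancel_right hYDd]
    rw [h3] at h1
    linarith
  have hmaxcut : E a V1 V1ᶜ ≤ n ^ 2 + 6 * t := by
    have h1 : E a V1 V1ᶜ = E a X V1ᶜ + E a D V1ᶜ := by
      rw [← E_union_left a hXD, ← hV1XD]
    have h2 : E a X V1ᶜ ≤ E a X Xᶜ := by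
      apply E_mono_right a h01
      rw [hYD]; exact Finset.subset_union_left
    linarith
  -- colour X
  obtain ⟨tn, rfl⟩ : ∃ tn : ℕ, t = tn := ⟨t.toNat, by rw [Int.toNat_of_nonneg]; linarith⟩
  obtain ⟨K, hK, f, hf1, hf2⟩ := exists_coloring_compl a hs h0 h01 (12 * (tn : ℤ)) (by linarith)
    (208 * tn) X (by
      intro v hv
      have := hdX2 v hv
      linarith) (by
      push_cast
      have : (n + 1) * n ≤ (X.card : ℤ) * (X.card - 1) := by nlinarith
      nlinarith)
  have hKpos : 0 < K := by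
    obtain ⟨v, hv⟩ := hXne
    exact lt_of_le_of_lt (Nat.zero_le _) (hf1 v hv)
  have : NeZero K := ⟨hKpos.ne'⟩
  obtain ⟨σ, hσ, hσ2⟩ := color_cut a hs K (fun v => (f v : ZMod K)) X (by
    intro u hu v hv huv h
    apply hf2 u hu v hv huv
    have h1 : ((f u : ZMod K)).val = ((f v : ZMod K)).val := by rw [h]
    rwa [ZMod.val_cast_of_lt (hf1 u hu), ZMod.val_cast_of_lt (hf1 v hv)] at h1)
  have hKle : (K : ℤ) ≤ n - 204 * tn := by
    have h1 : ((K + 208 * tn : ℕ) : ℤ) ≤ X.card := by exact_mod_cast hK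
    push_cast at h1
    linarith
  have hSX : ∑ u ∈ X, ∑ v ∈ X, a u v * (σ u * σ v) ≤ -(n + 204 * tn) := by
    by_contra h
    have h' : -(n + 204 * (tn : ℤ)) + 1 ≤ ∑ u ∈ X, ∑ v ∈ X, a u v * (σ u * σ v) := by linarith
    have hKp : (0 : ℤ) < K := by exact_mod_cast hKpos
    have e1 : (K : ℤ) * (-(n + 204 * (tn : ℤ)) + 1) ≤ - E a X X :=
      (mul_le_mul_of_nonneg_left h' hKp.le).trans hσ2
    have e2 : (K : ℤ) * (n + 204 * (tn : ℤ) - 1) ≤ (n - 204 * tn) * (n + 204 * (tn : ℤ) - 1) := by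
      apply mul_le_mul_of_nonneg_right hKle; linarith
    nlinarith
  -- colour Y
  obtain ⟨kk, hkk⟩ : ∃ kk : ℕ, (kk : ℤ) = n - 1 := ⟨(n - 1).toNat, by
    rw [Int.toNat_of_nonneg]; linarith⟩
  have hkpos : 0 < kk := by
    have : (0 : ℤ) < kk := by linarith
    exact_mod_cast this
  have : NeZero kk := ⟨hkpos.ne'⟩
  obtain ⟨g, hg⟩ := exists_coloring_of_few a hs h0 h01 kk (Xᶜ).card Xᶜ rfl (by
    rw [hkk]
    nlinarith)
  obtain ⟨τ, hτ, hτ2⟩ := color_cut a hs kk g Xᶜ hg
  have hSY : ∑ u ∈ Xᶜ, ∑ v ∈ Xᶜ, a u v * (τ u * τ v) ≤ -(n - 2) := by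
    by_contra h
    have h' : -(n - 2) + 1 ≤ ∑ u ∈ Xᶜ, ∑ v ∈ Xᶜ, a u v * (τ u * τ v) := by linarith
    rw [hkk] at hτ2
    have e1 : (n - 1) * (-(n - 2) + 1) ≤ - E a Xᶜ Xᶜ :=
      (mul_le_mul_of_nonneg_left h' (by linarith)).trans hτ2
    nlinarith
  obtain ⟨ρ, hρ, hρ2⟩ := glue_signs a hs X σ τ hσ hτ
  obtain ⟨S, hS⟩ := signed_sum_cut a hs ρ hρ
  have hcut := hmax S
  linarith

end main

end Pool.Agent.Helper38.Judicious
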